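import Pool.Agent.SOS.AlgStep
import Pool.Agent.SOC.AlgoPoly

/-! Project SOS, module AlgPoly (size 3): the decomposition algorithm runs in polynomial time. Use `poly_closB` and the size lemmas
of SOC/ModPoly.lean, `Poly.iterate`, `fun_prop` (see SOC/AlgoPoly.lean for similar proofs). -/

set_option autoImplicit false

namespace Pool.Agent.SOS

open Pool.Agent.SOC FP

section
variable {α : Type} [Code α]

theorem poly_clos {M : α → List (List Bool)} {W : α → List ℕ} {a b x : α → ℕ} (hM : Poly M) (hW : Poly W) (ha : Poly a)
    (hb : Poly b) (hx : Poly x) : Poly (fun p => clos (M p) (W p) (a p) (b p) (x p)) := by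
  unfold clos
  refine poly_closB (f := fun p w S => S.any (fun v => forceB (M p) (a p) (b p) v w)) ?_ hW (by fun_prop)
  refine Poly.any (f := fun p : α × ℕ × List ℕ => p.2.2)
    (g := fun (p : α × ℕ × List ℕ) (v : ℕ) => forceB (M p.1) (a p.1) (b p.1) v p.2.1) (by fun_prop) ?_
  unfold forceB
  have h1 : Poly (fun q : (α × ℕ × List ℕ) × ℕ => adjB (M q.1.1) q.2 q.1.2.1) :=
    AlgoPoly_adjB (by fun_prop) (by fun_prop) (by fun_prop)
  have h2 : Poly (fun q : (α × ℕ × List ℕ) × ℕ => adjB (M q.1.1) q.2 (b q.1.1)) :=
    AlgoPoly_adjB (by fun_prop) (by fun_prop) (by fun_prop)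
  have h3 : Poly (fun q : (α × ℕ × List ℕ) × ℕ => adjB (M q.1.1) (a q.1.1) q.1.2.1) :=
    AlgoPoly_adjB (by fun_prop) (by fun_prop) (by fun_prop)
  exact Poly.xor h1 (Poly.and h2 h3)

theorem AlgPoly_goodB {M : α → List (List Bool)} {W : α → List ℕ} {a b x : α → ℕ} (hM : Poly M) (hW : Poly W)
    (ha : Poly a) (hb : Poly b) (hx : Poly x) : Poly (fun p => goodB (M p) (W p) (a p) (b p) (x p)) := by
  unfold goodB
  have h1 := poly_clos hM hW ha hb hx
  have h2 := AlgoPoly_adjB hM ha hb
  have h3 : Poly (fun p => decide ((clos (M p) (W p) (a p) (b p) (x p)).length + 2 ≤ (W p).length)) :=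
    Poly.decideLe (by fun_prop) (by fun_prop)
  have h4 : Poly (fun p => decide (a p ≠ x p)) := by fun_prop
  have h5 : Poly (fun p => decide (b p ≠ x p)) := by fun_prop
  exact Poly.and (Poly.and (Poly.and h4 h5) h2) h3

theorem poly_splitOf {M : α → List (List Bool)} {W : α → List ℕ} (hM : Poly M) (hW : Poly W) :
    Poly (fun p => splitOf (M p) (W p)) := by
  unfold splitOf
  refine Poly.head? ?_
  refine Poly.flatMap (f := W) (g := fun p a => (W p).flatMap fun b =>
    ((W p).filter fun x => goodB (M p) (W p) a b x).map fun x => (a, b, clos (M p) (W p) a b x)) hW ?_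
  refine Poly.flatMap (f := fun q : α × ℕ => W q.1) (g := fun (q : α × ℕ) b =>
    ((W q.1).filter fun x => goodB (M q.1) (W q.1) q.2 b x).map
      fun x => (q.2, b, clos (M q.1) (W q.1) q.2 b x)) (by fun_prop) ?_
  refine FP.Poly.map (f := fun r : (α × ℕ) × ℕ => (W r.1.1).filter fun x => goodB (M r.1.1) (W r.1.1) r.1.2 r.2 x)
    (g := fun (r : (α × ℕ) × ℕ) x => (r.1.2, r.2, clos (M r.1.1) (W r.1.1) r.1.2 r.2 x)) ?_ ?_
  · refine Poly.filter (f := fun r : (α × ℕ) × ℕ => W r.1.1)
      (g := fun (r : (α × ℕ) × ℕ) x => goodB (M r.1.1) (W r.1.1) r.1.2 r.2 x) (by fun_prop) ?_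
    exact AlgPoly_goodB (by fun_prop) (by fun_prop) (by fun_prop) (by fun_prop) (by fun_prop)
  · have h1 : Poly (fun r : ((α × ℕ) × ℕ) × ℕ => clos (M r.1.1.1) (W r.1.1.1) r.1.1.2 r.1.2 r.2) :=
      poly_clos (by fun_prop) (by fun_prop) (by fun_prop) (by fun_prop) (by fun_prop)
    fun_prop

theorem AlgPoly_comp {M : α → List (List Bool)} {W : α → List ℕ} (hM : Poly M) (hW : Poly W) :
    Poly (fun p => comp (M p) (W p)) := by
  unfold comp
  refine poly_closB (f := fun p w S => S.any (fun v => adjB (M p) v w)) ?_ hW
    (Poly.take (by fun_prop) hW)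
  refine Poly.any (f := fun p : α × ℕ × List ℕ => p.2.2)
    (g := fun (p : α × ℕ × List ℕ) (v : ℕ) => adjB (M p.1) v p.2.1) (by fun_prop) ?_
  exact AlgoPoly_adjB (by fun_prop) (by fun_prop) (by fun_prop)

theorem poly_step {M : α → List (List Bool)} {W : α → List ℕ} (hM : Poly M) (hW : Poly W) :
    Poly (fun p => step (M p) (W p)) := by
  unfold step
  have hc := AlgPoly_comp hM hW
  have hs := poly_splitOf hM hW
  refine Poly.ite (PolyPred.le (by fun_prop) (by fun_prop)) (by fun_prop)
    (Poly.ite (PolyPred.lt (by fun_prop) (by fun_prop)) ?_ ?_)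
  · refine Poly.cons hc (Poly.cons ?_ (FP.Poly.const []))
    refine Poly.filter (f := W) (g := fun p w => !decide (w ∈ comp (M p) (W p))) hW ?_
    have h1 : Poly (fun q : α × ℕ => decide (q.2 ∈ comp (M q.1) (W q.1))) :=
      Poly.decideMem (by fun_prop) (hc.comp Poly.fst')
    exact Poly.not h1
  · refine (Poly.optionCases (f := fun p => splitOf (M p) (W p)) (g := fun p => [W p])
      (h := fun p t => [(W p).filter (fun w => decide (w ∈ t.2.2) || decide (w = t.2.1)),
        (W p).filter (fun w => !decide (w ∈ t.2.2) || decide (w = t.1))]) hs (by fun_prop) ?_).congr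
        (fun p => by cases splitOf (M p) (W p) <;> rfl)
    refine Poly.cons ?_ (Poly.cons ?_ (FP.Poly.const []))
    · refine Poly.filter (f := fun q : α × (ℕ × ℕ × List ℕ) => W q.1)
        (g := fun (q : α × (ℕ × ℕ × List ℕ)) w => decide (w ∈ q.2.2.2) || decide (w = q.2.2.1)) (by fun_prop) ?_
      exact Poly.or (Poly.decideMem (by fun_prop) (by fun_prop)) (by fun_prop)
    · refine Poly.filter (f := fun q : α × (ℕ × ℕ × List ℕ) => W q.1)
        (g := fun (q : α × (ℕ × ℕ × List ℕ)) w => !decide (w ∈ q.2.2.2) || decide (w = q.2.1)) (by fun_prop) ?_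
      exact Poly.or (Poly.not (Poly.decideMem (by fun_prop) (by fun_prop))) (by fun_prop)

theorem poly_sub {M : α → List (List Bool)} {W : α → List ℕ} (hM : Poly M) (hW : Poly W) :
    Poly (fun p => sub (M p) (W p)) := by
  unfold sub
  refine FP.Poly.map (f := W) (g := fun p i => (W p).map (fun j => adjB (M p) i j)) hW ?_
  refine FP.Poly.map (f := fun q : α × ℕ => W q.1) (g := fun (q : α × ℕ) j => adjB (M q.1) q.2 j)
    (by fun_prop) ?_
  exact AlgoPoly_adjB (by fun_prop) (by fun_prop) (by fun_prop)

end

/-- the number of pieces is at most M.length for k ≥ 1 (every piece with at most 3 elements disappears in the next round, but it can be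
present). PROOF: each step of a piece with n ≥ 4 elements produces at most 2 pieces; pieces of round k with at least 4 elements:
at most M.length / 2 by rounds_pot; so at most M.length pieces in round k + 1. -/
theorem rounds_length (M : List (List Bool)) (k : ℕ) : (rounds M k).length ≤ M.length + 1 := by
  cases k with
  | zero => simp [rounds]
  | succ k =>
    have e : rounds M (k + 1) = (rounds M k).flatMap (step M) := by
      unfold rounds
      rw [Function.iterate_succ_apply']
    have key : ∀ L : List (List ℕ), (L.flatMap (step M)).length ≤ (L.map (fun W' => W'.length - 2)).sum := by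
      intro L
      induction L with
      | nil => simp
      | cons W L ih =>
        rw [List.flatMap_cons, List.length_append, List.map_cons, List.sum_cons]
        have h1 : (step M W).length ≤ W.length - 2 := by
          unfold step
          split_ifs with h2 h3
          · simp
          · simp only [List.length_cons, List.length_nil]; omega
          · split
            · simp only [List.length_cons, List.length_nil]; omega
            · simp only [List.length_cons, List.length_nil]; omega
        omega
    rw [e]
    have h2 := key (rounds M k)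
    have h3 := rounds_pot (M := M) k
    omega

theorem AlgPoly_size_le (L : List (List ℕ)) (c : ℕ) (h : ∀ W ∈ L, size W ≤ c) :
    size L ≤ L.length * (2 * c + 1) := by
  induction L with
  | nil => simp [size_nil]
  | cons W L ih =>
    rw [size_cons, List.length_cons]
    have h1 := h W List.mem_cons_self
    have h2 := ih (fun W' h' => h W' (List.mem_cons_of_mem _ h'))
    have e : (L.length + 1) * (2 * c + 1) = L.length * (2 * c + 1) + (2 * c + 1) := by ring
    omega

/-- PROOF: Poly.iterate; the size of the state: rounds_length, every piece is a sublist of range M.length. -/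
theorem poly_rounds : Poly (fun M : List (List Bool) => rounds M M.length) := by
  have hr : Poly (fun M : List (List Bool) => List.range M.length) :=
    Poly.range (by fun_prop) (PolyBdd.length (by fun_prop))
  obtain ⟨P, hP⟩ := hr.size_le
  have hs : Poly (fun q : (List (List Bool) × List (List ℕ)) × List ℕ => step q.1.1 q.2) :=
    poly_step (by fun_prop) (by fun_prop)
  unfold rounds
  refine Poly.iterate (f := fun M : List (List Bool) => M.length) (g := fun M => [List.range M.length])
    (h := fun (M : List (List Bool)) (L : List (List ℕ)) => L.flatMap (step M)) (by fun_prop)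
    (PolyBdd.length (by fun_prop)) (by fun_prop) ?_ ((Polynomial.X + 1) * (2 * P + 1)) ?_
  · refine Poly.flatMap (f := fun p : List (List Bool) × List (List ℕ) => p.2)
      (g := fun (p : List (List Bool) × List (List ℕ)) W => step p.1 W) (by fun_prop) ?_
    exact hs
  · intro M k _
    have h1 := rounds_length M k
    have h2 : ∀ W ∈ rounds M k, size W ≤ size (List.range M.length) :=
      fun W hW => ModPoly_size_sublist (rounds_sub hW)
    have h3 := AlgPoly_size_le (rounds M k) _ h2
    have h4 := hP M
    have h5 := length_le_size M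
    have h6 : ((Polynomial.X + 1) * (2 * P + 1) : Polynomial ℕ).eval (size M) =
        (size M + 1) * (2 * P.eval (size M) + 1) := by simp
    rw [h6]
    refine le_trans h3 (Nat.mul_le_mul ?_ ?_)
    · omega
    · omega

theorem poly_allSOR {prime : List (List Bool) → Bool} (h : Poly prime) : Poly (allSOR prime) := by
  unfold allSOR
  refine Poly.all (f := fun M : List (List Bool) => rounds M M.length)
    (g := fun M W => decide (W.length ≤ 3) || prime (sub M W)) poly_rounds ?_
  have h1 : Poly (fun q : List (List Bool) × List ℕ => sub q.1 q.2) :=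
    poly_sub (by fun_prop) (by fun_prop)
  exact Poly.or (Poly.decideLe (by fun_prop) (by fun_prop)) (h.comp h1)

end Pool.Agent.SOS
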