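import Pool.Agent.SOS.OrdList

/-! Project SOS, module Emb (size 2): induced subgraphs. -/

set_option autoImplicit false

open Set

namespace Pool.Agent.SOS

open Pool.Agent.SOC Pool.Agent.SOD

variable {V W : Type} {G : SimpleGraph V}

/-- PROOF: r ∘ f and T (f ·) (f ·) (f ·) (f ·). -/
theorem sor_comap (f : W → V) (hf : Function.Injective f) (h : SOR G) : SOR (G.comap f) := by
  obtain ⟨r, T, hr, hT⟩ := h
  refine ⟨fun w => r (f w), fun a b c d => T (f a) (f b) (f c) (f d), fun a b h => hf (hr h), ?_⟩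
  exact
    { swap₁ := fun h => hT.swap₁ h
      swap₂ := fun h => hT.swap₂ h
      ne := fun h e => hT.ne h (congrArg f e)
      adj := fun h => hT.adj h
      nocross := fun h => hT.nocross h
      some := fun h1 h2 h3 h4 h5 h6 h7 =>
        hT.some h1 h2 (hf.ne h3) (hf.ne h4) (hf.ne h5) (hf.ne h6) h7
      notboth := fun h => hT.notboth h
      trans := fun h h' hne => hT.trans h h' (hf.ne hne)
      ferrers := fun h h' => hT.ferrers h h' }

/-- PROOF: T restricted to W (all four elements in W). For `some`: T a b c d of four elements of W. -/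
theorem sor_restr (S : Set V) (h : SOR G) : SOR (restr G S) := by
  obtain ⟨r, T, hr, hT⟩ := h
  refine ⟨r, fun a b c d => T a b c d ∧ a ∈ S ∧ b ∈ S ∧ c ∈ S ∧ d ∈ S, hr, ?_⟩
  exact
    { swap₁ := fun h => ⟨hT.swap₁ h.1, h.2.2.1, h.2.1, h.2.2.2.1, h.2.2.2.2⟩
      swap₂ := fun h => ⟨hT.swap₂ h.1, h.2.2.2.1, h.2.2.2.2, h.2.1, h.2.2.1⟩
      ne := fun h => hT.ne h.1
      adj := fun h => ⟨hT.adj h.1, h.2.1, h.2.2.2.1⟩
      nocross := fun h => hT.nocross h.1
      some := fun h1 h2 h3 h4 h5 h6 h7 => by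
        rcases hT.some h1.1 h2.1 h3 h4 h5 h6 h7 with h | h
        · exact Or.inl ⟨h, h1.2.1, h2.2.1, h1.2.2, h2.2.2⟩
        · exact Or.inr ⟨h, h1.2.1, h2.2.2, h2.2.1, h1.2.2⟩
      notboth := fun h h' => hT.notboth h.1 h'.1
      trans := fun h h' hne => ⟨hT.trans h.1 h'.1 hne, h.2.1, h.2.2.1, h.2.2.2.1, h'.2.2.2.2⟩
      ferrers := fun h h' => by
        rcases hT.ferrers h.1 h'.1 with k | k
        · exact Or.inl ⟨k, h.2.1, h.2.2.1, h'.2.2.2.1, h'.2.2.2.2⟩
        · exact Or.inr ⟨k, h.2.1, h'.2.2.1, h.2.2.2.1, h.2.2.2.2⟩ }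

theorem emb_pos [Finite V] (f : W → V) (hf : Function.Injective f) (r' : W → ℤ) (hr' : Function.Injective r') :
    ∃ r : V → ℤ, Function.Injective r ∧ ∀ w, r (f w) = r' w := by
  classical
  have : Finite W := Finite.of_injective f hf
  obtain ⟨n, ⟨e⟩⟩ := Finite.exists_equiv_fin V
  obtain ⟨M, hM⟩ := (Set.finite_range r').bddAbove
  have hM' : ∀ w, r' w ≤ M := fun w => hM ⟨w, rfl⟩
  have hval : ∀ v (h : ∃ w, f w = v), ∀ w, f w = v → r' h.choose = r' w := by
    intro v h w hw
    rw [hf (h.choose_spec.trans hw.symm)]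
  refine ⟨fun v => if h : ∃ w, f w = v then r' h.choose else M + 1 + ((e v : ℕ) : ℤ), ?_, ?_⟩
  · intro a b hab
    dsimp only at hab
    by_cases ha : ∃ w, f w = a
    · rw [dif_pos ha] at hab
      by_cases hb : ∃ w, f w = b
      · rw [dif_pos hb] at hab
        have := hr' hab
        rw [← ha.choose_spec, ← hb.choose_spec, this]
      · rw [dif_neg hb] at hab
        have := hM' ha.choose
        omega
    · rw [dif_neg ha] at hab
      by_cases hb : ∃ w, f w = b
      · rw [dif_pos hb] at hab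
        have := hM' hb.choose
        omega
      · rw [dif_neg hb] at hab
        have h1 : (e a : ℕ) = (e b : ℕ) := by omega
        exact e.injective (Fin.ext h1)
  · intro w
    dsimp only
    rw [dif_pos ⟨w, rfl⟩]
    exact hval (f w) ⟨w, rfl⟩ w rfl

/-- isolated vertices do not matter: if f is injective and G has only edges between elements of the range of f, then
SOR (G.comap f) → SOR G (V finite). PROOF: r (f w) := r' w; the vertices outside of the range get new positions (larger than all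
r' w, injectively: V is finite, use any injection V → ℕ); T a b c d :↔ ∃ a' b' c' d', a = f a', .. and T' a' b' c' d'. crF on elements of
the range agrees. -/
theorem sor_of_comap [Finite V] (f : W → V) (hf : Function.Injective f)
    (hG : ∀ {a b}, G.Adj a b → a ∈ Set.range f) (h : SOR (G.comap f)) : SOR G := by
  obtain ⟨r', T, hr', hT⟩ := h
  obtain ⟨r, hr, hrf⟩ := emb_pos f hf r' hr'
  refine ⟨r, fun a b c d => ∃ a' b' c' d', f a' = a ∧ f b' = b ∧ f c' = c ∧ f d' = d ∧ T a' b' c' d', hr, ?_⟩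
  have hcr : ∀ a b c d, crF r (f a) (f b) (f c) (f d) ↔ crF r' a b c d := by
    intro a b c d
    unfold crF
    simp only [hrf]
  exact
    { swap₁ := by
        rintro _ _ _ _ ⟨a, b, c, d, rfl, rfl, rfl, rfl, h⟩
        exact ⟨b, a, c, d, rfl, rfl, rfl, rfl, hT.swap₁ h⟩
      swap₂ := by
        rintro _ _ _ _ ⟨a, b, c, d, rfl, rfl, rfl, rfl, h⟩
        exact ⟨c, d, a, b, rfl, rfl, rfl, rfl, hT.swap₂ h⟩
      ne := by
        rintro _ _ _ _ ⟨a, b, c, d, rfl, rfl, rfl, rfl, h⟩
        exact hf.ne (hT.ne h)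
      adj := by
        rintro _ _ _ _ ⟨a, b, c, d, rfl, rfl, rfl, rfl, h⟩
        exact hT.adj h
      nocross := by
        rintro _ _ _ _ ⟨a, b, c, d, rfl, rfl, rfl, rfl, h⟩
        rw [hcr]
        exact hT.nocross h
      some := by
        intro a b c d h1 h2 h3 h4 h5 h6 h7
        obtain ⟨a, rfl⟩ := hG h1
        obtain ⟨c, rfl⟩ := hG h1.symm
        obtain ⟨b, rfl⟩ := hG h2
        obtain ⟨d, rfl⟩ := hG h2.symm
        rw [hcr] at h7
        have hne : ∀ {x y : W}, f x ≠ f y → x ≠ y := fun h e => h (congrArg f e)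
        rcases hT.some (a := a) (b := b) (c := c) (d := d) h1 h2 (hne h3) (hne h4) (hne h5) (hne h6) h7
          with h | h
        · exact Or.inl ⟨a, b, c, d, rfl, rfl, rfl, rfl, h⟩
        · exact Or.inr ⟨a, d, b, c, rfl, rfl, rfl, rfl, h⟩
      notboth := by
        rintro _ _ _ _ ⟨a, b, c, d, rfl, rfl, rfl, rfl, h⟩ ⟨a', d', b', c', e1, e2, e3, e4, h'⟩
        obtain rfl := hf e1
        obtain rfl := hf e2
        obtain rfl := hf e3
        obtain rfl := hf e4
        exact hT.notboth h h'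
      trans := by
        rintro _ _ _ _ _ ⟨a, b, c, d, rfl, rfl, rfl, rfl, h⟩ ⟨a', b', d', z, e1, e2, e3, rfl, h'⟩ hne
        obtain rfl := hf e1
        obtain rfl := hf e2
        obtain rfl := hf e3
        exact ⟨_, _, c, z, rfl, rfl, rfl, rfl, hT.trans h h' (fun e => hne (congrArg f e))⟩
      ferrers := by
        rintro _ _ _ _ _ _ ⟨a, x, b, y, rfl, rfl, rfl, rfl, h⟩ ⟨a', x', b', y', e1, rfl, e3, rfl, h'⟩
        obtain rfl := hf e1
        obtain rfl := hf e3
        rcases hT.ferrers h h' with k | k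
        · exact Or.inl ⟨_, x, _, y', rfl, rfl, rfl, rfl, k⟩
        · exact Or.inr ⟨_, x', _, y, rfl, rfl, rfl, rfl, k⟩ }

theorem emb_restr (G : SimpleGraph V) (S : Set V) :
    (restr G S).comap (Subtype.val : S → V) = G.induce S := by
  ext a b
  constructor
  · intro h
    exact h.1
  · intro h
    exact ⟨h, a.2, b.2⟩

/-- PROOF: sor_comap and sor_of_comap for Subtype.val. -/
theorem sor_restr_iff [Finite V] (S : Set V) : SOR (restr G S) ↔ SOR (G.induce S) := by
  constructor
  · intro h
    have := sor_comap (Subtype.val : S → V) Subtype.val_injective h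
    rwa [emb_restr] at this
  · intro h
    rw [← emb_restr] at h
    exact sor_of_comap (Subtype.val : S → V) Subtype.val_injective
      (fun {a b} hab => ⟨⟨a, hab.2.1⟩, rfl⟩) h

theorem sor_iso {H : SimpleGraph W} (e : G ≃g H) : SOR G ↔ SOR H := by
  have h1 : H.comap e = G := by
    ext a b
    exact e.map_rel_iff
  have h2 : G.comap e.symm = H := by
    ext a b
    exact e.symm.map_rel_iff
  constructor
  · intro h
    rw [← h2]
    exact sor_comap _ e.symm.injective h
  · intro h
    rw [← h1]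
    exact sor_comap _ e.injective h

end Pool.Agent.SOS
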