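import Pool.Agent.SOS.SplA

/-! Project SOS, module SplB (size 4): the Ferrers property of the composed quartets. -/

set_option autoImplicit false

open Set

namespace Pool.Agent.SOS

open Pool.Agent.SOC Pool.Agent.SOD

variable {V : Type} {G : SimpleGraph V} {A : Set V} {a₀ b₀ : V} {cr₁ cr₂ T₁ T₂ : V → V → V → V → Prop}

theorem splb_pin {a : V} (ha : a ∈ A) : prA A b₀ a = a := by
  unfold prA
  rw [if_pos ha]

theorem splb_pout {a : V} (ha : a ∉ A) : prA A b₀ a = b₀ := by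
  unfold prA
  rw [if_neg ha]

/-- a quartet with `a`, `b` in `A` -/
theorem splb_in {a b x y : V} (ha : a ∈ A) (hb : b ∈ A) (h : TS G A a₀ b₀ T₁ T₂ a x b y) :
    T₁ a (prA A b₀ x) b (prA A b₀ y) ∧ (x ∉ A → G.Adj a₀ x) ∧ (y ∉ A → G.Adj a₀ y) := by
  rcases h with ⟨-, h2, h3⟩ | ⟨h1, -, -⟩ | ⟨-, -, h4⟩
  · rw [splb_pin ha, splb_pin hb] at h3
    exact ⟨h3, h2 x (Or.inr (Or.inl rfl)), h2 y (Or.inr (Or.inr (Or.inr rfl)))⟩
  · exfalso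
    rcases h1 with h1 | h1
    · exact h1.1 ha
    · exact h1.1 hb
  · exfalso
    rcases h4 with h4 | h4
    · exact h4.2.2.1 hb
    · exact h4.1 ha

/-- making a quartet with `a`, `b` in `A` -/
theorem splb_mk (q1 : QT (restr G (A ∪ {b₀})) cr₁ T₁) {a b x y : V} (ha : a ∈ A) (hb : b ∈ A)
    (h : T₁ a (prA A b₀ x) b (prA A b₀ y)) (hx : x ∉ A → G.Adj a₀ x) (hy : y ∉ A → G.Adj a₀ y) :
    TS G A a₀ b₀ T₁ T₂ a x b y := by
  left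
  have hxy : x ∈ A ∨ y ∈ A := by
    by_contra hc
    rw [not_or] at hc
    rw [splb_pout hc.1, splb_pout hc.2] at h
    exact (q1.adj (q1.swap₁ (q1.swap₂ (q1.swap₁ h)))).1.ne rfl
  refine ⟨?_, ?_, ?_⟩
  · rcases hxy with h1 | h1
    · exact Or.inl ⟨ha, h1, Or.inl hb⟩
    · exact Or.inr ⟨hb, h1, Or.inl ha⟩
  · rintro z (rfl | rfl | rfl | rfl) hz
    · exact absurd ha hz
    · exact hx hz
    · exact absurd hb hz
    · exact hy hz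
  · rw [splb_pin ha, splb_pin hb]
    exact h

/-- the three types of quartets with `a ∈ A`, `b ∉ A` -/
theorem splb_type (q1 : QT (restr G (A ∪ {b₀})) cr₁ T₁) (q2 : QT (restr G (Aᶜ ∪ {a₀})) cr₂ T₂) {a b x y : V}
    (ha : a ∈ A) (hb : b ∉ A) (h : TS G A a₀ b₀ T₁ T₂ a x b y) :
    (G.Adj a b₀ ∧ G.Adj a₀ b) ∧
      ((x ∈ A ∧ y ∈ A ∧ T₁ a x b₀ y ∧ a ≠ x ∧ G.Adj x b₀) ∨
        ((x ∈ A ∧ a ≠ x ∧ G.Adj x b₀) ∧ (y ∉ A ∧ b ≠ y ∧ G.Adj a₀ y)) ∨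
        (x ∉ A ∧ y ∉ A ∧ T₂ a₀ x b y ∧ b ≠ y ∧ G.Adj a₀ y)) := by
  rcases h with ⟨h1, h2, h3⟩ | ⟨h1, h2, h3⟩ | ⟨h1, h2, h4⟩
  · have hxy : x ∈ A ∧ y ∈ A := by
      rcases h1 with h1 | h1
      · refine ⟨h1.2.1, ?_⟩
        rcases h1.2.2 with h5 | h5
        · exact absurd h5 hb
        · exact h5
      · exact absurd h1.1 hb
    rw [splb_pin ha, splb_pin hxy.1, splb_pout hb, splb_pin hxy.2] at h3
    exact ⟨⟨(q1.adj h3).1, h2 b (Or.inr (Or.inr (Or.inl rfl))) hb⟩,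
      Or.inl ⟨hxy.1, hxy.2, h3, q1.ne h3, (q1.adj (q1.swap₁ h3)).1⟩⟩
  · have hxy : x ∉ A ∧ y ∉ A := by
      rcases h1 with h1 | h1
      · exact absurd ha h1.1
      · refine ⟨?_, h1.2.1⟩
        rcases h1.2.2 with h5 | h5
        · exact absurd ha h5
        · exact h5
    rw [splb_pout (A := Aᶜ) (not_not.2 ha), splb_pin (A := Aᶜ) hxy.1, splb_pin (A := Aᶜ) hb,
      splb_pin (A := Aᶜ) hxy.2] at h3
    exact ⟨⟨(h2 a (Or.inl rfl) (not_not.2 ha)).symm, (q2.adj h3).1⟩,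
      Or.inr (Or.inr ⟨hxy.1, hxy.2, h3, q2.ne (q2.swap₂ h3), (q2.adj (q2.swap₁ (q2.swap₂ h3))).1.symm⟩)⟩
  · rcases h4 with h4 | h4
    · exact ⟨⟨h4.2.2.2.2.1, h4.2.2.2.2.2.2.1⟩,
        Or.inr (Or.inl ⟨⟨h4.2.1, h1, h4.2.2.2.2.2.1⟩, h4.2.2.2.1, h2, h4.2.2.2.2.2.2.2⟩)⟩
    · exact absurd ha h4.1

/-- PROOF, a, b ∈ A. Each of the two quartets has at most one element outside of A (x, y ∉ A would be mixed two and two), so it is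
TS1 for A: T₁ (a, πx, b, πy), T₁ (a, πx', b, πy'). q1.ferrers: T₁ (a, πx, b, πy') or T₁ (a, πx', b, πy). In the first case not both x, y' ∉ A (b₀
would be adjacent to itself by q1.adj), and the outside element is attached (it occurs in one of the given quartets): TS1. -/
theorem ts_ferrers_in (hs : IsSpl G A a₀ b₀) (q1 : QT (restr G (A ∪ {b₀})) cr₁ T₁)
    (q2 : QT (restr G (Aᶜ ∪ {a₀})) cr₂ T₂) {a b x y x' y' : V} (ha : a ∈ A) (hb : b ∈ A)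
    (h : TS G A a₀ b₀ T₁ T₂ a x b y) (h' : TS G A a₀ b₀ T₁ T₂ a x' b y') :
    TS G A a₀ b₀ T₁ T₂ a x b y' ∨ TS G A a₀ b₀ T₁ T₂ a x' b y := by
  obtain ⟨h1, h2, h3⟩ := splb_in ha hb h
  obtain ⟨h1', h2', h3'⟩ := splb_in ha hb h'
  rcases q1.ferrers h1 h1' with h4 | h4
  · exact Or.inl (splb_mk q1 ha hb h4 h2 h3')
  · exact Or.inr (splb_mk q1 ha hb h4 h2' h3)


/-- PROOF, a ∈ A, b ∉ A (a ~ b₀, a₀ ~ b since a ~ b). A quartet (a x | b y) is of type P: x, y ∈ A: T₁ (a, x, b₀, y), then x ~ b₀; Q: x ∈ A,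
y ∉ A: x ~ b₀, a₀ ~ y; R: x, y ∉ A: T₂ (a₀, x, b, y), then a₀ ~ y; x ∉ A, y ∈ A is mixed two and two: impossible. (P,P): q1.ferrers. (R,R):
q2.ferrers. All other pairs: one of the first elements is in A and attached (P or Q) and the second element of the other
quartet is not in A and attached (Q or R): TS2 (with x ≠ a, y ≠ b). -/
theorem ts_ferrers_mix (hs : IsSpl G A a₀ b₀) (q1 : QT (restr G (A ∪ {b₀})) cr₁ T₁)
    (q2 : QT (restr G (Aᶜ ∪ {a₀})) cr₂ T₂) {a b x y x' y' : V} (ha : a ∈ A) (hb : b ∉ A)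
    (h : TS G A a₀ b₀ T₁ T₂ a x b y) (h' : TS G A a₀ b₀ T₁ T₂ a x' b y') :
    TS G A a₀ b₀ T₁ T₂ a x b y' ∨ TS G A a₀ b₀ T₁ T₂ a x' b y := by
  obtain ⟨⟨e1, e2⟩, h1⟩ := splb_type q1 q2 ha hb h
  obtain ⟨-, h1'⟩ := splb_type q1 q2 ha hb h'
  have key : ∀ u v : V, (u ∈ A ∧ a ≠ u ∧ G.Adj u b₀) → (v ∉ A ∧ b ≠ v ∧ G.Adj a₀ v) →
      TS G A a₀ b₀ T₁ T₂ a u b v := by
    rintro u v ⟨u1, u2, u3⟩ ⟨v1, v2, v3⟩
    exact Or.inr (Or.inr ⟨u2, v2, Or.inl ⟨ha, u1, hb, v1, e1, u3, e2, v3⟩⟩)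
  have kP : ∀ u v : V, u ∈ A → v ∈ A → T₁ a u b₀ v → TS G A a₀ b₀ T₁ T₂ a u b v := by
    intro u v hu hv h5
    left
    refine ⟨Or.inl ⟨ha, hu, Or.inr hv⟩, ?_, ?_⟩
    · rintro z (rfl | rfl | rfl | rfl) hz
      · exact absurd ha hz
      · exact absurd hu hz
      · exact e2
      · exact absurd hv hz
    · rw [splb_pin ha, splb_pin hu, splb_pout hb, splb_pin hv]
      exact h5
  have kR : ∀ u v : V, u ∉ A → v ∉ A → T₂ a₀ u b v → TS G A a₀ b₀ T₁ T₂ a u b v := by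
    intro u v hu hv h5
    right
    left
    refine ⟨Or.inr ⟨hb, hv, Or.inr hu⟩, ?_, ?_⟩
    · rintro z (rfl | rfl | rfl | rfl) hz
      · exact e1.symm
      · exact absurd hu hz
      · exact absurd hb hz
      · exact absurd hv hz
    · rw [splb_pout (A := Aᶜ) (not_not.2 ha), splb_pin (A := Aᶜ) hu, splb_pin (A := Aᶜ) hb,
        splb_pin (A := Aᶜ) hv]
      exact h5
  rcases h1 with ⟨p1, p2, p3, p4, p5⟩ | ⟨l1, r1⟩ | ⟨p1, p2, p3, p4, p5⟩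
  · rcases h1' with ⟨p1', p2', p3', p4', p5'⟩ | ⟨l1', r1'⟩ | ⟨p1', p2', p3', p4', p5'⟩
    · rcases q1.ferrers p3 p3' with h5 | h5
      · exact Or.inl (kP _ _ p1 p2' h5)
      · exact Or.inr (kP _ _ p1' p2 h5)
    · exact Or.inl (key _ _ ⟨p1, p4, p5⟩ r1')
    · exact Or.inl (key _ _ ⟨p1, p4, p5⟩ ⟨p2', p4', p5'⟩)
  · rcases h1' with ⟨p1', p2', p3', p4', p5'⟩ | ⟨l1', r1'⟩ | ⟨p1', p2', p3', p4', p5'⟩
    · exact Or.inr (key _ _ ⟨p1', p4', p5'⟩ r1)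
    · exact Or.inl (key _ _ l1 r1')
    · exact Or.inl (key _ _ l1 ⟨p2', p4', p5'⟩)
  · rcases h1' with ⟨p1', p2', p3', p4', p5'⟩ | ⟨l1', r1'⟩ | ⟨p1', p2', p3', p4', p5'⟩
    · exact Or.inr (key _ _ ⟨p1', p4', p5'⟩ ⟨p2, p4, p5⟩)
    · exact Or.inr (key _ _ l1' ⟨p2, p4, p5⟩)
    · rcases q2.ferrers p3 p3' with h5 | h5
      · exact Or.inl (kR _ _ p1 p2' h5)
      · exact Or.inr (kR _ _ p1' p2 h5)


/-- PROOF: the four cases for a, b; a ∉ A, b ∈ A by ts_swap2 (exchange the roles: (b y | a x)), a, b ∉ A by ts_comm and IsSpl.symm. -/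
theorem ts_ferrers (hs : IsSpl G A a₀ b₀) (q1 : QT (restr G (A ∪ {b₀})) cr₁ T₁)
    (q2 : QT (restr G (Aᶜ ∪ {a₀})) cr₂ T₂) {a b x y x' y' : V}
    (h : TS G A a₀ b₀ T₁ T₂ a x b y) (h' : TS G A a₀ b₀ T₁ T₂ a x' b y') :
    TS G A a₀ b₀ T₁ T₂ a x b y' ∨ TS G A a₀ b₀ T₁ T₂ a x' b y := by
  by_cases ha : a ∈ A
  · by_cases hb : b ∈ A
    · exact ts_ferrers_in hs q1 q2 ha hb h h'
    · exact ts_ferrers_mix hs q1 q2 ha hb h h'
  · by_cases hb : b ∈ A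
    · rcases ts_ferrers_mix hs q1 q2 hb ha (ts_swap2 q1 q2 h) (ts_swap2 q1 q2 h') with h1 | h1
      · exact Or.inr (ts_swap2 q1 q2 h1)
      · exact Or.inl (ts_swap2 q1 q2 h1)
    · have q1' : QT (restr G (Aᶜᶜ ∪ {b₀})) cr₁ T₁ := by rw [compl_compl]; exact q1
      rcases ts_ferrers_in hs.symm q2 q1' (a := a) (b := b) ha hb (ts_comm.1 h) (ts_comm.1 h') with h1 | h1
      · exact Or.inl (ts_comm.2 h1)
      · exact Or.inr (ts_comm.2 h1)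


end Pool.Agent.SOS
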