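import Pool.Agent.SOS.Rot
import Pool.Agent.SOS.SplB

/-! Project SOS, module SplT (size 3): composition at a split. -/

set_option autoImplicit false

open Set

namespace Pool.Agent.SOS

open Pool.Agent.SOC Pool.Agent.SOD

variable {V : Type} {G : SimpleGraph V}

private theorem splt_in {A : Set V} {b₀ x : V} (h : x ∈ A) : prA A b₀ x = x := by
  unfold prA
  rw [if_pos h]

private theorem splt_out {A : Set V} {b₀ x : V} (h : x ∉ A) : prA A b₀ x = b₀ := by
  unfold prA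
  rw [if_neg h]

private theorem splt_cr {A : Set V} {b₀ : V} {r r₁ : V → ℤ}
    (H : ∀ x y, (x ∈ A ∨ y ∈ A) → (r x < r y ↔ r₁ (prA A b₀ x) < r₁ (prA A b₀ y))) {a b c d : V}
    (hac : a ∈ A ∨ c ∈ A) (hbc : b ∈ A ∨ c ∈ A) (had : a ∈ A ∨ d ∈ A) (hbd : b ∈ A ∨ d ∈ A) :
    crF r a b c d ↔ crF r₁ (prA A b₀ a) (prA A b₀ b) (prA A b₀ c) (prA A b₀ d) := by
  unfold crF
  rw [H a c hac, H c b hbc.symm, H b c hbc, H c a hac.symm, H a d had, H d b hbd.symm, H b d hbd, H d a had.symm]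

private theorem splt_nocross {A : Set V} {a₀ b₀ : V} {r r₁ : V → ℤ} {T₁ : V → V → V → V → Prop}
    (H : ∀ x y, (x ∈ A ∨ y ∈ A) → (r x < r y ↔ r₁ (prA A b₀ x) < r₁ (prA A b₀ y)))
    (q1 : QT (restr G (A ∪ {b₀})) (crF r₁) T₁) {a b c d : V} (h : TS1 G A a₀ b₀ T₁ a b c d) : ¬ crF r a b c d := by
  have e := h.1
  rw [splt_cr H (by tauto) (by tauto) (by tauto) (by tauto)]
  exact q1.nocross h.2.2

private theorem splt_nepr {A : Set V} {b₀ : V} (hb : b₀ ∉ A) {x y : V} (hxy : x ≠ y) (h : x ∈ A ∨ y ∈ A) :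
    prA A b₀ x ≠ prA A b₀ y := by
  intro he
  by_cases hx : x ∈ A
  · by_cases hy : y ∈ A
    · rw [splt_in hx, splt_in hy] at he
      exact hxy he
    · rw [splt_in hx, splt_out hy] at he
      rw [he] at hx
      exact hb hx
  · by_cases hy : y ∈ A
    · rw [splt_out hx, splt_in hy] at he
      rw [← he] at hy
      exact hb hy
    · tauto

private theorem splt_adjpr {A : Set V} {a₀ b₀ : V} (hs : IsSpl G A a₀ b₀) {x y : V} (hxy : G.Adj x y)
    (h : x ∈ A ∨ y ∈ A) : (restr G (A ∪ {b₀})).Adj (prA A b₀ x) (prA A b₀ y) := by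
  have hm : ∀ t : V, prA A b₀ t ∈ A ∪ {b₀} := by
    intro t
    by_cases ht : t ∈ A
    · rw [splt_in ht]
      exact Or.inl ht
    · rw [splt_out ht]
      exact Or.inr rfl
  refine ⟨?_, hm x, hm y⟩
  by_cases hx : x ∈ A
  · by_cases hy : y ∈ A
    · rw [splt_in hx, splt_in hy]
      exact hxy
    · rw [splt_in hx, splt_out hy]
      exact ((hs.rect hx hy).1 hxy).1
  · by_cases hy : y ∈ A
    · rw [splt_out hx, splt_in hy]
      exact ((hs.rect hy hx).1 hxy.symm).1.symm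
    · tauto

private theorem splt_att {A : Set V} {a₀ b₀ : V} (hs : IsSpl G A a₀ b₀) {x y : V} (hxy : G.Adj x y)
    (h : x ∈ A ∨ y ∈ A) (hx : x ∉ A) : G.Adj a₀ x := by
  have hy : y ∈ A := by tauto
  exact ((hs.rect hy hx).1 hxy.symm).2

private theorem splt_some {A : Set V} {a₀ b₀ : V} {r r₁ : V → ℤ} {T₁ : V → V → V → V → Prop}
    (hs : IsSpl G A a₀ b₀)
    (H : ∀ x y, (x ∈ A ∨ y ∈ A) → (r x < r y ↔ r₁ (prA A b₀ x) < r₁ (prA A b₀ y)))
    (q1 : QT (restr G (A ∪ {b₀})) (crF r₁) T₁) {a b c d : V}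
    (hm : (a ∈ A ∧ b ∈ A ∧ (c ∈ A ∨ d ∈ A)) ∨ (c ∈ A ∧ d ∈ A ∧ (a ∈ A ∨ b ∈ A)))
    (hac : G.Adj a c) (hbd : G.Adj b d) (hab : a ≠ b) (had : a ≠ d) (hbc : b ≠ c) (hcd : c ≠ d)
    (hcr : crF r a c b d) : TS1 G A a₀ b₀ T₁ a b c d ∨ TS1 G A a₀ b₀ T₁ a d b c := by
  rw [splt_cr H (by tauto) (by tauto) (by tauto) (by tauto)] at hcr
  have h := q1.some (splt_adjpr hs hac (by tauto)) (splt_adjpr hs hbd (by tauto))
    (splt_nepr hs.hb hab (by tauto)) (splt_nepr hs.hb had (by tauto)) (splt_nepr hs.hb hbc (by tauto))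
    (splt_nepr hs.hb hcd (by tauto)) hcr
  have hat : ∀ t, (t = a ∨ t = b ∨ t = c ∨ t = d) → t ∉ A → G.Adj a₀ t := by
    intro t ht htA
    rcases ht with rfl | rfl | rfl | rfl
    · exact splt_att hs hac (by tauto) htA
    · exact splt_att hs hbd (by tauto) htA
    · exact splt_att hs hac.symm (by tauto) htA
    · exact splt_att hs hbd.symm (by tauto) htA
  rcases h with h | h
  · left
    exact ⟨hm, hat, h⟩
  · right
    refine ⟨by tauto, ?_, h⟩
    intro t ht htA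
    exact hat t (by tauto) htA

private theorem splt_two {a b c d : Prop} (h1 : ¬ ((a ∧ b ∧ (c ∨ d)) ∨ (c ∧ d ∧ (a ∨ b))))
    (h2 : ¬ ((¬ a ∧ ¬ b ∧ (¬ c ∨ ¬ d)) ∨ (¬ c ∧ ¬ d ∧ (¬ a ∨ ¬ b)))) :
    (a ∧ b ∧ ¬ c ∧ ¬ d) ∨ (a ∧ c ∧ ¬ b ∧ ¬ d) ∨ (a ∧ d ∧ ¬ b ∧ ¬ c) ∨ (b ∧ c ∧ ¬ a ∧ ¬ d) ∨
      (b ∧ d ∧ ¬ a ∧ ¬ c) ∨ (c ∧ d ∧ ¬ a ∧ ¬ b) := by
  tauto

/-- PROOF: r₁ with b₀ maximal, r₂ with a₀ minimal (rot_max, rot_min, qt_congr), r by `glue`, T := TS. An element x ∉ A is after all of A,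
like b₀ in r₁; an element of A is before all others, like a₀ in r₂. So crF r agrees with crF r₁ after prA A b₀ for quadruples of
different elements with at most one element outside of A, and with crF r₂ after prA Aᶜ a₀ for at most one element in A.
swap₁, swap₂, ne, adj, notboth, trans, ferrers: SplA, SplB. nocross: TS1: as said; TS2: A is before the rest.
some (crossing edges ac, bd): at most one element outside of A: q1.some (if x ∉ A is one of them it is adjacent to its partner in A,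
so a₀ ~ x and the partner ~ b₀ by hs.rect: the projected pairs are edges). At most one in A: same. Two and two: a, c ∈ A, b, d ∉ A (or
reversed): the chords do not cross. a, b ∈ A, c, d ∉ A: all attached (hs.rect): T a b c d by TS2; a, d ∈ A, b, c ∉ A: T a d b c; the
remaining two cases (c, d ∈ A; b, c ∈ A) similarly. -/
theorem split_comp [Finite V] {A : Set V} {a₀ b₀ : V} (hs : IsSpl G A a₀ b₀) (h1 : SOR (restr G (A ∪ {b₀})))
    (h2 : SOR (restr G (Aᶜ ∪ {a₀}))) : SOR G := by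
  obtain ⟨s₁, T₁, i1, p1⟩ := h1
  obtain ⟨s₂, T₂, i2, p2⟩ := h2
  obtain ⟨r₁, j1, m1, c1⟩ := rot_max s₁ i1 b₀
  obtain ⟨r₂, j2, m2, c2⟩ := rot_min s₂ i2 a₀
  have q1 : QT (restr G (A ∪ {b₀})) (crF r₁) T₁ := qt_congr c1 p1
  have q2 : QT (restr G (Aᶜ ∪ {a₀})) (crF r₂) T₂ := qt_congr c2 p2
  obtain ⟨r, j, g1, g2, g3⟩ := glue r₁ r₂ j1 j2 A
  have H1 : ∀ x y, (x ∈ A ∨ y ∈ A) → (r x < r y ↔ r₁ (prA A b₀ x) < r₁ (prA A b₀ y)) := by
    intro x y hxy
    by_cases hx : x ∈ A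
    · by_cases hy : y ∈ A
      · rw [splt_in hx, splt_in hy]
        exact g1 x hx y hy
      · rw [splt_in hx, splt_out hy]
        have hne : x ≠ b₀ := by
          rintro rfl
          exact hs.hb hx
        exact ⟨fun _ => m1 x hne, fun _ => g3 x hx y hy⟩
    · have hy : y ∈ A := by tauto
      rw [splt_out hx, splt_in hy]
      have hne : y ≠ b₀ := by
        rintro rfl
        exact hs.hb hy
      constructor
      · intro h
        exact absurd h (not_lt.mpr (g3 y hy x hx).le)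
      · intro h
        exact absurd h (not_lt.mpr (m1 y hne).le)
  have H2 : ∀ x y, (x ∈ Aᶜ ∨ y ∈ Aᶜ) → (r x < r y ↔ r₂ (prA Aᶜ a₀ x) < r₂ (prA Aᶜ a₀ y)) := by
    intro x y hxy
    by_cases hx : x ∈ Aᶜ
    · by_cases hy : y ∈ Aᶜ
      · rw [splt_in hx, splt_in hy]
        exact g2 x hx y hy
      · rw [splt_in hx, splt_out hy]
        have hne : x ≠ a₀ := by
          rintro rfl
          exact hx hs.ha
        constructor
        · intro h
          exact absurd h (not_lt.mpr (g3 y (not_not.mp hy) x hx).le)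
        · intro h
          exact absurd h (not_lt.mpr (m2 x hne).le)
    · have hy : y ∈ Aᶜ := by tauto
      rw [splt_out hx, splt_in hy]
      have hne : y ≠ a₀ := by
        rintro rfl
        exact hy hs.ha
      exact ⟨fun _ => m2 y hne, fun _ => g3 x (not_not.mp hx) y hy⟩
  refine ⟨r, TS G A a₀ b₀ T₁ T₂, j, ?_⟩
  refine
    { swap₁ := fun h => ts_swap1 q1 q2 h
      swap₂ := fun h => ts_swap2 q1 q2 h
      ne := fun h => ts_ne q1 q2 h
      adj := fun h => ts_adj hs q1 q2 h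
      nocross := ?_
      some := ?_
      notboth := fun h => ts_notboth q1 q2 h
      trans := fun h h' hxz => ts_trans hs q1 q2 h h' hxz
      ferrers := fun h h' => ts_ferrers hs q1 q2 h h' }
  · intro a b c d h
    rcases h with h | h | h
    · exact splt_nocross H1 q1 h
    · exact splt_nocross H2 q2 h
    · obtain ⟨_, _, (h | h)⟩ := h
      · obtain ⟨ha, hb, hc, hd, _⟩ := h
        have k1 := g3 a ha c hc
        have k2 := g3 b hb c hc
        have k3 := g3 a ha d hd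
        have k4 := g3 b hb d hd
        unfold crF
        omega
      · obtain ⟨ha, hb, hc, hd, _⟩ := h
        have k1 := g3 c hc a ha
        have k2 := g3 c hc b hb
        have k3 := g3 d hd a ha
        have k4 := g3 d hd b hb
        unfold crF
        omega
  · intro a b c d hac hbd hab had hbc hcd hcr
    by_cases hin : (a ∈ A ∧ b ∈ A ∧ (c ∈ A ∨ d ∈ A)) ∨ (c ∈ A ∧ d ∈ A ∧ (a ∈ A ∨ b ∈ A))
    · rcases splt_some hs H1 q1 hin hac hbd hab had hbc hcd hcr with h | h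
      · exact Or.inl (Or.inl h)
      · exact Or.inr (Or.inl h)
    by_cases hout : (a ∈ Aᶜ ∧ b ∈ Aᶜ ∧ (c ∈ Aᶜ ∨ d ∈ Aᶜ)) ∨ (c ∈ Aᶜ ∧ d ∈ Aᶜ ∧ (a ∈ Aᶜ ∨ b ∈ Aᶜ))
    · rcases splt_some hs.symm H2 q2 hout hac hbd hab had hbc hcd hcr with h | h
      · exact Or.inl (Or.inr (Or.inl h))
      · exact Or.inr (Or.inr (Or.inl h))
    rcases splt_two hin hout with ⟨ha, hb, hc, hd⟩ | ⟨ha, hc, hb, hd⟩ | ⟨ha, hd, hb, hc⟩ | ⟨hb, hc, ha, hd⟩ |
      ⟨hb, hd, ha, hc⟩ | ⟨hc, hd, ha, hb⟩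
    · have k1 := (hs.rect ha hc).1 hac
      have k2 := (hs.rect hb hd).1 hbd
      exact Or.inl (Or.inr (Or.inr ⟨hab, hcd, Or.inl ⟨ha, hb, hc, hd, k1.1, k2.1, k1.2, k2.2⟩⟩))
    · exfalso
      have k1 := g3 a ha b hb
      have k2 := g3 c hc b hb
      have k3 := g3 a ha d hd
      have k4 := g3 c hc d hd
      unfold crF at hcr
      omega
    · have k1 := (hs.rect ha hc).1 hac
      have k2 := (hs.rect hd hb).1 hbd.symm
      exact Or.inr (Or.inr (Or.inr ⟨had, hbc, Or.inl ⟨ha, hd, hb, hc, k1.1, k2.1, k2.2, k1.2⟩⟩))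
    · have k1 := (hs.rect hc ha).1 hac.symm
      have k2 := (hs.rect hb hd).1 hbd
      exact Or.inr (Or.inr (Or.inr ⟨had, hbc, Or.inr ⟨ha, hd, hb, hc, k1.2, k2.2, k2.1, k1.1⟩⟩))
    · exfalso
      have k1 := g3 b hb a ha
      have k2 := g3 b hb c hc
      have k3 := g3 d hd a ha
      have k4 := g3 d hd c hc
      unfold crF at hcr
      omega
    · have k1 := (hs.rect hc ha).1 hac.symm
      have k2 := (hs.rect hd hb).1 hbd.symm
      exact Or.inl (Or.inr (Or.inr ⟨hab, hcd, Or.inr ⟨ha, hb, hc, hd, k1.2, k2.2, k1.1, k2.1⟩⟩))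

end Pool.Agent.SOS
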