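import Pool.Agent.SOS.AlgPrime
import Pool.Agent.SOS.SplT
import Pool.Agent.SOS.Emb

/-! Project SOS, module AlgSor (size 4): correctness. -/

set_option autoImplicit false

namespace Pool.Agent.SOS

open Pool.Agent.SOC

variable {M : List (List Bool)} {W : List ℕ}

theorem restr_restr {V : Type} {G : SimpleGraph V} (S S' : Set V) : restr (restr G S) S' = restr G (S ∩ S') := by
  ext a b
  simp only [restr, Set.mem_inter_iff]
  tauto

/-- PROOF: T := False, any injective r; `some` asks for four different elements of S. -/
theorem sor_small {V : Type} [Finite V] {G : SimpleGraph V} (S : Set V) (hS : S.ncard ≤ 3) : SOR (restr G S) := by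
  classical
  obtain ⟨n, ⟨e⟩⟩ := Finite.exists_equiv_fin V
  refine ⟨fun v => ((e v : Fin n) : ℕ), fun _ _ _ _ => False, ?_, ?_⟩
  · intro x y h
    have h0 : (((e x : Fin n) : ℕ) : ℤ) = (((e y : Fin n) : ℕ) : ℤ) := h
    have h1 : ((e x : Fin n) : ℕ) = ((e y : Fin n) : ℕ) := by exact_mod_cast h0
    exact e.injective (Fin.ext h1)
  · refine ⟨fun h => h, fun h => h, fun h => h.elim, fun h => h.elim, fun h => h.elim, ?_, fun h => h.elim,
      fun h => h.elim, fun h => h.elim⟩
    intro a b c d hac hbd hab had hbc hcd _
    exfalso
    have h1 : a ≠ c := hac.ne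
    have h2 : b ≠ d := hbd.ne
    have hsub : (({a, b, c, d} : Finset V) : Set V) ⊆ S := by
      intro x hx
      simp only [Finset.coe_insert, Finset.coe_singleton, Set.mem_insert_iff, Set.mem_singleton_iff] at hx
      rcases hx with rfl | rfl | rfl | rfl
      · exact hac.2.1
      · exact hbd.2.1
      · exact hac.2.2
      · exact hbd.2.2
    have hc : (({a, b, c, d} : Finset V) : Set V).ncard = 4 := by
      rw [Set.ncard_coe_finset]
      rw [Finset.card_insert_of_notMem, Finset.card_insert_of_notMem, Finset.card_insert_of_notMem,
        Finset.card_singleton]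
      · simpa using hcd
      · simp only [Finset.mem_insert, Finset.mem_singleton, not_or]
        exact ⟨hbc, h2⟩
      · simp only [Finset.mem_insert, Finset.mem_singleton, not_or]
        exact ⟨hab, h1, had⟩
    have := Set.ncard_le_ncard hsub (Set.toFinite S)
    omega

theorem algsor_mem_setW {i : Fin M.length} : i ∈ setW M W ↔ i.val ∈ W := Iff.rfl

/-- PROOF: sor_restr_iff and sor_iso; the isomorphism i ↦ W[i], with adjB_sub. -/
theorem sorw_iff (hW : W.Nodup) (hr : ∀ w ∈ W, w < M.length) : SORW M W ↔ SOR (graphOf (sub M W)) := by
  unfold SORW
  rw [sor_restr_iff]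
  have hl : (sub M W).length = W.length := sub_length
  let f : Fin (sub M W).length → ↥(setW M W) := fun i =>
    ⟨⟨W[i.val]'(by have := i.isLt; omega), hr _ (List.getElem_mem _)⟩, List.getElem_mem (by have := i.isLt; omega)⟩
  have hf : Function.Bijective f := by
    constructor
    · intro i j h
      have h1 : W[i.val]'(by have := i.isLt; omega) = W[j.val]'(by have := j.isLt; omega) := by
        have := congrArg (fun x : ↥(setW M W) => x.1.val) h
        simpa [f] using this
      have h2 := (List.Nodup.getElem_inj_iff hW).1 h1
      exact Fin.ext h2
    · rintro ⟨⟨x, hx⟩, hxW⟩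
      have hxW' : x ∈ W := hxW
      obtain ⟨n, hn, hn2⟩ := List.getElem_of_mem hxW'
      refine ⟨⟨n, by omega⟩, ?_⟩
      simp only [f]
      apply Subtype.ext
      apply Fin.ext
      exact hn2
  let e : Fin (sub M W).length ≃ ↥(setW M W) := Equiv.ofBijective f hf
  have e2 : graphOf (sub M W) ≃g (graphOf M).induce (setW M W) :=
    { toEquiv := e
      map_rel_iff' := by
        intro i j
        have hi : i.val < W.length := by have := i.isLt; omega
        have hj : j.val < W.length := by have := j.isLt; omega
        have h1 := adjB_sub (M := M) hW hi hj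
        show adjB M (W[i.val]) (W[j.val]) = true ↔ adjB (sub M W) i.val j.val = true
        rw [h1] }
  exact (sor_iso e2).symm

theorem algsor_ncard : (setW M W).ncard ≤ W.length := by
  classical
  have h1 : (Fin.val '' (setW M W)) ⊆ ((W.toFinset : Finset ℕ) : Set ℕ) := by
    rintro _ ⟨i, hi, rfl⟩
    have hi2 : i.val ∈ W := hi
    simpa using hi2
  have h2 : (Fin.val '' (setW M W)).ncard = (setW M W).ncard :=
    Set.ncard_image_of_injective _ Fin.val_injective
  have h3 := Set.ncard_le_ncard h1 (Set.toFinite _)
  rw [Set.ncard_coe_finset] at h3
  have h4 := List.toFinset_card_le W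
  omega

/-- PROOF. →: every W' ∈ step M W is a sublist of W: restr_restr, sor_restr. ←: cases of the definition of step. At most 3
elements: sor_small. comp: sor_union for restr (graphOf M) (setW M W) and A := setW M (comp M W) (comp_spec, adjB_comm). split: A := setW M A',
IsSpl (restr (graphOf M) (setW M W)) A a b by clos_spec (forceB = false is the equality of the two sides of rect; b' ∉ W: both sides are
false), split_comp, restr_restr. -/
theorem step_iff (hW : W.Nodup) (hr : ∀ w ∈ W, w < M.length) : SORW M W ↔ ∀ W' ∈ step M W, SORW M W' := by
  constructor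
  · intro h W' hW'
    have hs := step_sub W' hW'
    have e : restr (graphOf M) (setW M W') = restr (restr (graphOf M) (setW M W)) (setW M W') := by
      rw [restr_restr]
      congr 1
      ext i
      simp only [Set.mem_inter_iff, algsor_mem_setW]
      exact ⟨fun h => ⟨hs.subset h, h⟩, fun h => h.2⟩
    unfold SORW
    rw [e]
    exact sor_restr _ h
  · intro h
    by_cases h3 : W.length ≤ 3
    · exact sor_small _ (algsor_ncard.trans h3)
    have hne : W ≠ [] := by
      rintro rfl
      simp at h3
    by_cases hc : (comp M W).length < W.length
    · have hst : step M W = [comp M W, W.filter (fun w => !decide (w ∈ comp M W))] := by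
        unfold step
        rw [if_neg h3, if_pos hc]
      rw [hst] at h
      have h1 := h (comp M W) (by simp)
      have h2 := h (W.filter (fun w => !decide (w ∈ comp M W))) (by simp)
      obtain ⟨hs, _, hcl⟩ := comp_spec (M := M) hne
      unfold SORW
      refine sor_union (setW M (comp M W)) ?_ ?_ ?_
      · intro a b hab
        have hab' : adjB M a.val b.val = true ∧ a.val ∈ W ∧ b.val ∈ W := hab
        constructor
        · intro ha
          exact hcl _ ha _ hab'.2.2 hab'.1
        · intro hb
          exact hcl _ hb _ hab'.2.1 (by rw [adjB_comm]; exact hab'.1)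
      · rw [restr_restr]
        have e : setW M W ∩ setW M (comp M W) = setW M (comp M W) := by
          ext i
          simp only [Set.mem_inter_iff, algsor_mem_setW]
          exact ⟨fun h => h.2, fun h => ⟨hs.subset h, h⟩⟩
        rw [e]
        exact h1
      · rw [restr_restr]
        have e : setW M W ∩ (setW M (comp M W))ᶜ = setW M (W.filter (fun w => !decide (w ∈ comp M W))) := by
          ext i
          simp only [Set.mem_inter_iff, Set.mem_compl_iff, algsor_mem_setW, List.mem_filter,
            Bool.not_eq_true', decide_eq_false_iff_not]
        rw [e]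
        exact h2
    · rcases hsp : splitOf M W with _ | ⟨a, b, A'⟩
      · have hst : step M W = [W] := by
          unfold step
          rw [if_neg h3, if_neg hc, hsp]
        rw [hst] at h
        exact h W (by simp)
      · have hst : step M W = [W.filter (fun w => decide (w ∈ A') || decide (w = b)),
            W.filter (fun w => !decide (w ∈ A') || decide (w = a))] := by
          unfold step
          rw [if_neg h3, if_neg hc, hsp]
        rw [hst] at h
        have h1 := h (W.filter (fun w => decide (w ∈ A') || decide (w = b))) (by simp)
        have h2 := h (W.filter (fun w => !decide (w ∈ A') || decide (w = a))) (by simp)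
        obtain ⟨ha, hb, hab, x, hx, hxa, hxb, hA, hlen⟩ := splitOf_some hsp
        obtain ⟨hs, haA, hxA, hbA, hfo⟩ := clos_spec (M := M) ha hx hxb hab
        rw [← hA] at hs haA hxA hbA hfo
        have hspl : IsSpl (restr (graphOf M) (setW M W)) (setW M A') ⟨a, hr a ha⟩ ⟨b, hr b hb⟩ := by
          refine ⟨haA, hbA, ⟨hab, ha, hb⟩, ?_⟩
          intro a' b' ha' hb'
          have ha1 : a'.val ∈ A' := ha'
          have hb1 : b'.val ∉ A' := hb'
          show (adjB M a'.val b'.val = true ∧ a'.val ∈ W ∧ b'.val ∈ W) ↔
            (adjB M a'.val b = true ∧ a'.val ∈ W ∧ b ∈ W) ∧ (adjB M a b'.val = true ∧ a ∈ W ∧ b'.val ∈ W)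
          have ha2 : a'.val ∈ W := hs.subset ha1
          by_cases hbW : b'.val ∈ W
          · have hf := hfo _ ha1 _ hbW hb1
            unfold forceB at hf
            have hf2 : adjB M a'.val b'.val = (adjB M a'.val b && adjB M a b'.val) := by
              revert hf
              cases adjB M a'.val b'.val <;> cases (adjB M a'.val b && adjB M a b'.val) <;> simp
            rw [hf2]
            simp only [Bool.and_eq_true]
            tauto
          · tauto
        unfold SORW
        refine split_comp hspl ?_ ?_
        · rw [restr_restr]
          have e : setW M W ∩ (setW M A' ∪ {(⟨b, hr b hb⟩ : Fin M.length)}) =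
              setW M (W.filter (fun w => decide (w ∈ A') || decide (w = b))) := by
            ext i
            simp only [Set.mem_inter_iff, Set.mem_union, Set.mem_singleton_iff, algsor_mem_setW, List.mem_filter,
              Bool.or_eq_true, decide_eq_true_eq, Fin.ext_iff]
          rw [e]
          exact h1
        · rw [restr_restr]
          have e : setW M W ∩ ((setW M A')ᶜ ∪ {(⟨a, hr a ha⟩ : Fin M.length)}) =
              setW M (W.filter (fun w => !decide (w ∈ A') || decide (w = a))) := by
            ext i
            simp only [Set.mem_inter_iff, Set.mem_union, Set.mem_compl_iff, Set.mem_singleton_iff, algsor_mem_setW,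
              List.mem_filter, Bool.or_eq_true, Bool.not_eq_true', decide_eq_false_iff_not, decide_eq_true_eq,
              Fin.ext_iff]
          rw [e]
          exact h2

/-- PROOF: by induction on k, step_iff, rounds_sub. -/
theorem rounds_iff (k : ℕ) : SOR (graphOf M) ↔ ∀ W ∈ rounds M k, SORW M W := by
  induction k with
  | zero =>
    have e : rounds M 0 = [List.range M.length] := rfl
    rw [e]
    simp only [List.mem_singleton, forall_eq]
    unfold SORW
    have e2 : restr (graphOf M) (setW M (List.range M.length)) = graphOf M := by
      ext i j
      show (((graphOf M).Adj i j) ∧ i.val ∈ List.range M.length ∧ j.val ∈ List.range M.length) ↔ _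
      simp only [List.mem_range, i.isLt, j.isLt, and_self, and_true]
    rw [e2]
  | succ k ih =>
    rw [ih]
    have e : rounds M (k + 1) = (rounds M k).flatMap (step M) := by
      unfold rounds
      rw [Function.iterate_succ_apply']
    rw [e]
    simp only [List.mem_flatMap, forall_exists_index, and_imp]
    constructor
    · intro h W' W hW hW'
      have hs := rounds_sub hW
      exact (step_iff (List.Nodup.sublist hs List.nodup_range)
        (fun w hw => List.mem_range.1 (hs.subset hw))).1 (h W hW) W' hW'
    · intro h W hW
      have hs := rounds_sub hW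
      exact (step_iff (List.Nodup.sublist hs List.nodup_range)
        (fun w hw => List.mem_range.1 (hs.subset hw))).2 (fun W' hW' => h W' W hW hW')

/-- PROOF: rounds_iff, rounds_final: W.length ≤ 3: sor_small; otherwise step_final, prime_sub, sorw_iff. -/
theorem allSOR_iff {prime : List (List Bool) → Bool}
    (hp : ∀ M, 4 ≤ M.length → PrimeG (graphOf M) → (prime M = true ↔ SOR (graphOf M))) (M : List (List Bool)) :
    allSOR prime M = true ↔ SOR (graphOf M) := by
  rw [rounds_iff M.length]
  unfold allSOR
  rw [List.all_eq_true]
  refine forall₂_congr ?_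
  intro W hW
  have hs := rounds_sub hW
  have hn : W.Nodup := List.Nodup.sublist hs List.nodup_range
  have hr : ∀ w ∈ W, w < M.length := fun w hw => List.mem_range.1 (hs.subset hw)
  simp only [Bool.or_eq_true, decide_eq_true_eq]
  constructor
  · rintro (h | h)
    · exact sor_small _ (algsor_ncard.trans h)
    · rcases rounds_final hW with h1 | h1
      · exact sor_small _ (algsor_ncard.trans h1)
      · have h4 := (step_final hn h1).1
        rw [sorw_iff hn hr]
        exact (hp _ (by rw [sub_length]; exact h4) (prime_sub hn h1)).1 h
  · intro h
    rcases rounds_final hW with h1 | h1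
    · exact Or.inl h1
    · right
      have h4 := (step_final hn h1).1
      rw [sorw_iff hn hr] at h
      exact (hp _ (by rw [sub_length]; exact h4) (prime_sub hn h1)).2 h

end Pool.Agent.SOS
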