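import Pool.Agent.SOS.Defs

/-! Project SOS, module OrdList (size 3): orders by lists and by positions. -/

set_option autoImplicit false

open Set

namespace Pool.Agent.SOS

open Pool.Agent.SOC Pool.Agent.SOD

variable {V : Type} {G : SimpleGraph V}

/-- QT only depends on the crossing relation of four different points. PROOF: nocross, some; elements of a quartet are different
(ne, adj with the swaps). -/
theorem qt_congr {cr cr' : V → V → V → V → Prop} {T : V → V → V → V → Prop}
    (h : ∀ {a b c d}, a ≠ b → c ≠ d → a ≠ c → a ≠ d → b ≠ c → b ≠ d → (cr a b c d ↔ cr' a b c d)) (hT : QT G cr T) :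
    QT G cr' T := by
  have hne : ∀ {a b c d : V}, T a b c d → a ≠ b ∧ c ≠ d ∧ a ≠ c ∧ a ≠ d ∧ b ≠ c ∧ b ≠ d := by
    intro a b c d hh
    have h1 : T b a c d := hT.swap₁ hh
    have h2 : T c d a b := hT.swap₂ hh
    have h3 : T a b d c := hT.swap₂ (hT.swap₁ h2)
    have h4 : T b a d c := hT.swap₁ h3
    exact ⟨hT.ne hh, hT.ne h2, (hT.adj hh).ne, (hT.adj h3).ne, (hT.adj h1).ne, (hT.adj h4).ne⟩
  refine ⟨hT.swap₁, hT.swap₂, hT.ne, hT.adj, ?_, ?_, hT.notboth, hT.trans, hT.ferrers⟩
  · intro a b c d hh hc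
    obtain ⟨h1, h2, h3, h4, h5, h6⟩ := hne hh
    exact hT.nocross hh ((h h1 h2 h3 h4 h5 h6).2 hc)
  · intro a b c d hac hbd hab had hbc hcd hc
    exact hT.some hac hbd hab had hbc hcd ((h hac.ne hbd.ne hab had hbc.symm hcd).2 hc)

theorem ordlist_idx [DecidableEq V] {s : List V} {r : V → ℤ} (hs : IsEnum s)
    (hp : s.Pairwise (fun u v => r u < r v)) {x y : V} : s.idxOf x < s.idxOf y ↔ r x < r y := by
  have key : ∀ {x y : V}, s.idxOf x < s.idxOf y → r x < r y := by
    intro x y h
    have hx : s.idxOf x < s.length := List.idxOf_lt_length_of_mem (hs.2 x)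
    have hy : s.idxOf y < s.length := List.idxOf_lt_length_of_mem (hs.2 y)
    have h1 := List.pairwise_iff_getElem.1 hp _ _ hx hy h
    rwa [List.getElem_idxOf hx, List.getElem_idxOf hy] at h1
  refine ⟨key, fun h => ?_⟩
  rcases lt_trichotomy (s.idxOf x) (s.idxOf y) with h1 | h1 | h1
  · exact h1
  · have h2 : x = y := (List.idxOf_inj (hs.2 x)).1 h1
    rw [h2] at h
    exact absurd h (lt_irrefl _)
  · exact absurd (key h1) (not_lt.2 h.le)

theorem ordlist_sort [Finite V] {r : V → ℤ} (hr : Function.Injective r) :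
    ∃ s : List V, s.Nodup ∧ (∀ v, v ∈ s) ∧ s.Pairwise (fun u v => r u < r v) := by
  classical
  have : Fintype V := Fintype.ofFinite V
  let _ : LinearOrder V := LinearOrder.lift' r hr
  refine ⟨(Finset.univ : Finset V).sort (fun a b => a ≤ b), Finset.sort_nodup _ _, fun v => ?_, ?_⟩
  · rw [Finset.mem_sort]
    exact Finset.mem_univ v
  · have h1 := (Finset.sortedLT_sort (Finset.univ : Finset V)).pairwise
    exact h1

/-- PROOF. ←: r v = idxOf v in s (injective on members; all v ∈ s); crF r = Cross s by unfolding. →: V is finite: let s be the list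
of all vertices sorted by r (e.g. (Finset.univ.sort ..) for the order r x ≤ r y, or List.mergeSort / insertionSort; or induction):
idxOf x < idxOf y ↔ r x < r y. -/
theorem sor_iff_list [Finite V] [DecidableEq V] : SOR G ↔ ∃ s, IsEnum s ∧ ∃ T, QT G (Cross s) T := by
  constructor
  · rintro ⟨r, T, hr, hT⟩
    obtain ⟨s, h1, h2, h3⟩ := ordlist_sort hr
    have hs : IsEnum s := ⟨h1, h2⟩
    refine ⟨s, hs, T, qt_congr ?_ hT⟩
    intro a b c d _ _ _ _ _ _
    unfold crF Cross Pool.Agent.SOC.Btw
    simp only [ordlist_idx hs h3]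
  · rintro ⟨s, hs, T, hT⟩
    refine ⟨fun v => (s.idxOf v : ℤ), T, ?_, qt_congr ?_ hT⟩
    · intro x y hxy
      have h1 : s.idxOf x = s.idxOf y := Nat.cast_injective hxy
      exact (List.idxOf_inj (hs.2 x)).1 h1
    · intro a b c d _ _ _ _ _ _
      unfold crF Cross Pool.Agent.SOC.Btw
      simp only [Nat.cast_lt]

end Pool.Agent.SOS
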