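import Pool.Agent.SOD.Defs

/-! Project SOS (MP_66ba69_lc, from prime graphs to all graphs), module Defs. -/

set_option autoImplicit false

open Set

namespace Pool.Agent.SOS

open Pool.Agent.SOC Pool.Agent.SOD

/-- the chords `ab` and `cd` cross, when the positions of the vertices in the (cyclic) order are given by `r` -/
def crF {V : Type} (r : V → ℤ) (a b c d : V) : Prop :=
  ¬ (((r a < r c ∧ r c < r b) ∨ (r b < r c ∧ r c < r a)) ↔ ((r a < r d ∧ r d < r b) ∨ (r b < r d ∧ r d < r a)))

/-- there are a cyclic order and a quartet structure -/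
def SOR {V : Type} (G : SimpleGraph V) : Prop :=
  ∃ (r : V → ℤ) (T : V → V → V → V → Prop), Function.Injective r ∧ QT G (crF r) T

/-- the edges inside `W` -/
def restr {V : Type} (G : SimpleGraph V) (W : Set V) : SimpleGraph V where
  Adj a b := G.Adj a b ∧ a ∈ W ∧ b ∈ W
  symm := ⟨fun _ _ h => ⟨h.1.symm, h.2.2, h.2.1⟩⟩
  loopless := ⟨fun _ h => h.1.ne rfl⟩

/-- `A` is one side of a split of `G` (the sides may be small), `a₀ b₀` is one of the edges between the sides -/
structure IsSpl {V : Type} (G : SimpleGraph V) (A : Set V) (a₀ b₀ : V) : Prop where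
  ha : a₀ ∈ A
  hb : b₀ ∉ A
  adj : G.Adj a₀ b₀
  rect : ∀ {a b}, a ∈ A → b ∉ A → (G.Adj a b ↔ G.Adj a b₀ ∧ G.Adj a₀ b)

/-- `G` is prime: connected, and every split has a side with one vertex -/
def PrimeG {V : Type} (G : SimpleGraph V) : Prop :=
  G.Connected ∧ ∀ (A : Set V) (a₀ b₀ : V), IsSpl G A a₀ b₀ → A = {a₀} ∨ Aᶜ = {b₀}

end Pool.Agent.SOS
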