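import Pool.Agent.SOS.Defs
import Pool.Agent.SOC.Algo

/-! Project SOS, module AlgDefs: the decomposition algorithm (components and splits). All pieces are lists of vertices of the
input graph, sublists of `range M.length`. -/

set_option autoImplicit false

namespace Pool.Agent.SOS

open Pool.Agent.SOC

/-- for the cut edge `ab`: if `v` is on the side of `a` then `w` has to be on the side of `a` as well -/
def forceB (M : List (List Bool)) (a b v w : ℕ) : Bool := xor (adjB M v w) (adjB M v b && adjB M a w)

/-- the smallest set (inside `W`) containing `a`, `x` which is one side of a split with the cut edge `ab` -/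
def clos (M : List (List Bool)) (W : List ℕ) (a b x : ℕ) : List ℕ :=
  closB (fun w S => S.any (fun v => forceB M a b v w)) W [a, x]

/-- `clos` has at least two elements, its complement has at least two elements -/
def goodB (M : List (List Bool)) (W : List ℕ) (a b x : ℕ) : Bool :=
  decide (a ≠ x) && decide (b ≠ x) && adjB M a b && decide ((clos M W a b x).length + 2 ≤ W.length)

/-- a nontrivial split of the subgraph induced by `W`: the cut edge `ab` and the side of `a` -/
def splitOf (M : List (List Bool)) (W : List ℕ) : Option (ℕ × ℕ × List ℕ) :=
  (W.flatMap fun a => W.flatMap fun b =>
    (W.filter fun x => goodB M W a b x).map fun x => (a, b, clos M W a b x)).head?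

/-- the component of the first vertex of `W` in the subgraph induced by `W` -/
def comp (M : List (List Bool)) (W : List ℕ) : List ℕ :=
  closB (fun w S => S.any (fun v => adjB M v w)) W (W.take 1)

/-- one decomposition step -/
def step (M : List (List Bool)) (W : List ℕ) : List (List ℕ) :=
  if W.length ≤ 3 then [] else
  if (comp M W).length < W.length then [comp M W, W.filter (fun w => !decide (w ∈ comp M W))] else
  match splitOf M W with
  | none => [W]
  | some p => [W.filter (fun w => decide (w ∈ p.2.2) || decide (w = p.2.1)),
      W.filter (fun w => !decide (w ∈ p.2.2) || decide (w = p.1))]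

/-- the pieces after `k` rounds -/
def rounds (M : List (List Bool)) (k : ℕ) : List (List ℕ) :=
  (fun L : List (List ℕ) => L.flatMap (step M))^[k] [List.range M.length]

/-- the matrix of the subgraph induced by `W` -/
def sub (M : List (List Bool)) (W : List ℕ) : List (List Bool) := W.map (fun i => W.map (fun j => adjB M i j))

/-- the algorithm, with a test `prime` for prime graphs -/
def allSOR (prime : List (List Bool) → Bool) (M : List (List Bool)) : Bool :=
  (rounds M M.length).all (fun W => decide (W.length ≤ 3) || prime (sub M W))

/-- the vertices of `W` -/
def setW (M : List (List Bool)) (W : List ℕ) : Set (Fin M.length) := {i | i.val ∈ W}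

/-- the subgraph induced by `W` is fine -/
def SORW (M : List (List Bool)) (W : List ℕ) : Prop := SOR (restr (graphOf M) (setW M W))

end Pool.Agent.SOS
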