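import Pool.Agent.SOS.AlgStep

/-! Project SOS, module AlgPrime (size 3): final pieces are prime. -/

set_option autoImplicit false

namespace Pool.Agent.SOS

open Pool.Agent.SOC

variable {M : List (List Bool)} {W : List ℕ}

theorem sub_length : (sub M W).length = W.length := by
  unfold sub
  exact List.length_map _

private theorem AlgPrime_getD {i j : ℕ} (hi : i < W.length) (hj : j < W.length) :
    ((sub M W).getD i []).getD j false = adjB M (W[i]) (W[j]) := by
  have h1 : (sub M W).getD i [] = W.map (fun j => adjB M (W[i]) j) := by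
    unfold sub
    rw [List.getD_eq_getElem _ _ (by rw [List.length_map]; exact hi), List.getElem_map]
  rw [h1, List.getD_eq_getElem _ _ (by rw [List.length_map]; exact hj), List.getElem_map]

private theorem AlgPrime_irr (x : ℕ) : adjB M x x = false := by
  unfold adjB
  simp

/-- PROOF: adjB_comm. -/
theorem adjB_sub (hW : W.Nodup) {i j : ℕ} (hi : i < W.length) (hj : j < W.length) :
    adjB (sub M W) i j = adjB M (W[i]) (W[j]) := by
  have h1 : adjB (sub M W) i j = (decide (i ≠ j) && (((sub M W).getD i []).getD j false ||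
      ((sub M W).getD j []).getD i false)) := rfl
  rw [h1, AlgPrime_getD hi hj, AlgPrime_getD hj hi, adjB_comm (W[j]) (W[i]), Bool.or_self]
  by_cases e : i = j
  · subst e
    rw [AlgPrime_irr]
    simp
  · simp [e]

/-- PROOF: comp_min: the set of the elements of W which are reachable (in graphOf (sub M W)) from the first element of W contains
comp M W, which has at least W.length elements and is a sublist of W, so it is W. -/
theorem conn_sub (hW : W.Nodup) (h4 : 4 ≤ W.length) (h : W.length ≤ (comp M W).length) :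
    (graphOf (sub M W)).Connected := by
  have hlen := sub_length (M := M) (W := W)
  have hW0 : W ≠ [] := by
    rintro rfl
    simp at h4
  have hcs := comp_spec (M := M) hW0
  have hcW : comp M W = W := hcs.1.eq_of_length_le h
  let i₀ : Fin (sub M W).length := ⟨0, by omega⟩
  let X : Set ℕ := {z | ∃ (i : Fin (sub M W).length) (hi : i.val < W.length), W[i.val] = z ∧
    (graphOf (sub M W)).Reachable i₀ i}
  have hmin := comp_min (M := M) (W := W) X ?_ ?_
  · rw [SimpleGraph.connected_iff_exists_forall_reachable]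
    refine ⟨i₀, fun j => ?_⟩
    have hj : j.val < W.length := by have := j.2; omega
    obtain ⟨i, hi, he, hr⟩ := hmin (W[j.val]) (by rw [hcW]; exact List.getElem_mem hj)
    have hij : i.val = j.val := (hW.getElem_inj_iff).1 he
    have : i = j := Fin.ext hij
    rw [← this]
    exact hr
  · intro w hw
    have hw0 : w = W[0]'(by omega) := by
      have h5 : W.take 1 = [W[0]'(by omega)] := by
        cases W with
        | nil => exact absurd rfl hW0
        | cons a l => simp
      rw [h5] at hw
      exact List.mem_singleton.1 hw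
    exact ⟨i₀, by show 0 < W.length; omega, hw0.symm, SimpleGraph.Reachable.refl _⟩
  · rintro v ⟨i, hi, he, hr⟩ hv w hw hadj
    obtain ⟨j, hj, hjw⟩ := List.mem_iff_getElem.1 hw
    refine ⟨⟨j, by omega⟩, hj, hjw, hr.trans (SimpleGraph.Adj.reachable ?_)⟩
    show adjB (sub M W) i.val j = true
    rw [adjB_sub hW hi hj, he, hjw]
    exact hadj

/-- PROOF: let IsSpl (graphOf (sub M W)) A a₀ b₀, A ≠ {a₀}: x₀ ∈ A, x₀ ≠ a₀. clos_min for a = W[a₀], b = W[b₀], x = W[x₀] and X := the set of the
values W[i], i ∈ A: clos ⊆ X, clos has at least W.length - 1 elements (splitOf_none), b ∉ X. So X = W minus b, and Aᶜ = {b₀}. -/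
theorem prime_sub (hW : W.Nodup) (h : step M W = [W]) : PrimeG (graphOf (sub M W)) := by
  obtain ⟨h4, hcomp, hnone⟩ := step_final hW h
  refine ⟨conn_sub hW h4 hcomp, ?_⟩
  intro A a₀ b₀ hA
  have hlen := sub_length (M := M) (W := W)
  have hlt : ∀ i : Fin (sub M W).length, i.val < W.length := fun i => by have := i.2; omega
  have hadj : ∀ i j : Fin (sub M W).length, (graphOf (sub M W)).Adj i j ↔
      adjB M (W[i.val]'(hlt i)) (W[j.val]'(hlt j)) = true := by
    intro i j
    rw [← adjB_sub hW (hlt i) (hlt j)]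
    exact Iff.rfl
  have hinj : ∀ i j : Fin (sub M W).length, W[i.val]'(hlt i) = W[j.val]'(hlt j) → i = j := by
    intro i j e
    exact Fin.ext ((hW.getElem_inj_iff).1 e)
  by_cases hA1 : A = {a₀}
  · exact Or.inl hA1
  · right
    obtain ⟨x₀, hx₀, hxa⟩ : ∃ x₀ ∈ A, x₀ ≠ a₀ := by
      by_contra hcon
      push Not at hcon
      apply hA1
      ext z
      constructor
      · intro hz
        exact hcon z hz
      · intro hz
        rw [Set.mem_singleton_iff.1 hz]
        exact hA.ha
    have hxb : x₀ ≠ b₀ := fun e => hA.hb (e ▸ hx₀)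
    have haW : W[a₀.val]'(hlt a₀) ∈ W := List.getElem_mem _
    have hbW : W[b₀.val]'(hlt b₀) ∈ W := List.getElem_mem _
    have hxW : W[x₀.val]'(hlt x₀) ∈ W := List.getElem_mem _
    have hxa' : W[x₀.val]'(hlt x₀) ≠ W[a₀.val]'(hlt a₀) := fun e => hxa (hinj _ _ e)
    have hxb' : W[x₀.val]'(hlt x₀) ≠ W[b₀.val]'(hlt b₀) := fun e => hxb (hinj _ _ e)
    have hab := (hadj a₀ b₀).1 hA.adj
    have h5 := splitOf_none hnone haW hbW hxW hxa' hxb' hab
    obtain ⟨s1, s2, s3, s4, s5⟩ := clos_spec (M := M) haW hxW hxb' hab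
    have hmin := clos_min (M := M) (b := W[b₀.val]'(hlt b₀)) haW hxW
      {z | ∃ i : Fin (sub M W).length, i ∈ A ∧ W[i.val]'(hlt i) = z} ⟨a₀, hA.ha, rfl⟩ ⟨x₀, hx₀, rfl⟩ ?_
    · ext z
      constructor
      · intro hz
        rw [Set.mem_singleton_iff]
        by_contra hzb
        have hzb' : W[z.val]'(hlt z) ≠ W[b₀.val]'(hlt b₀) := fun e => hzb (hinj _ _ e)
        have hzc : W[z.val]'(hlt z) ∈ clos M W (W[a₀.val]'(hlt a₀)) (W[b₀.val]'(hlt b₀)) (W[x₀.val]'(hlt x₀)) := by
          by_contra hzc
          have hnd : (W[b₀.val]'(hlt b₀) :: W[z.val]'(hlt z) ::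
              clos M W (W[a₀.val]'(hlt a₀)) (W[b₀.val]'(hlt b₀)) (W[x₀.val]'(hlt x₀))).Nodup := by
            rw [List.nodup_cons, List.nodup_cons]
            refine ⟨?_, hzc, s1.nodup hW⟩
            rw [List.mem_cons]
            rintro (e | e)
            · exact hzb' e.symm
            · exact s4 e
          have hsb : (W[b₀.val]'(hlt b₀) :: W[z.val]'(hlt z) ::
              clos M W (W[a₀.val]'(hlt a₀)) (W[b₀.val]'(hlt b₀)) (W[x₀.val]'(hlt x₀))) ⊆ W := by
            intro y hy
            rcases List.mem_cons.1 hy with e | hy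
            · rw [e]; exact hbW
            · rcases List.mem_cons.1 hy with e | hy
              · rw [e]; exact List.getElem_mem _
              · exact s1.subset hy
          have h6 := (hnd.subperm hsb).length_le
          rw [List.length_cons, List.length_cons] at h6
          omega
        obtain ⟨i, hi, he⟩ := hmin _ hzc
        have : i = z := hinj _ _ he
        exact hz (this ▸ hi)
      · intro hz
        rw [Set.mem_singleton_iff.1 hz]
        exact hA.hb
    · rintro v ⟨i, hi, he⟩ hv w hw hf
      obtain ⟨j, hj, hjw⟩ := List.mem_iff_getElem.1 hw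
      have hj' : j < (sub M W).length := by omega
      refine ⟨⟨j, hj'⟩, ?_, hjw⟩
      by_contra hjA
      have h7 := hA.rect hi hjA
      rw [hadj, hadj, hadj] at h7
      have h7' : (adjB M v w = true ↔ adjB M v (W[b₀.val]'(hlt b₀)) = true ∧
          adjB M (W[a₀.val]'(hlt a₀)) w = true) := by
        have e1 : W[(⟨j, hj'⟩ : Fin (sub M W).length).val]'(hlt _) = w := hjw
        rw [he, e1] at h7
        exact h7
      have h8 : forceB M (W[a₀.val]'(hlt a₀)) (W[b₀.val]'(hlt b₀)) v w =
        xor (adjB M v w) (adjB M v (W[b₀.val]'(hlt b₀)) && adjB M (W[a₀.val]'(hlt a₀)) w) := rfl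
      rw [h8] at hf
      have h9 : adjB M v w = (adjB M v (W[b₀.val]'(hlt b₀)) && adjB M (W[a₀.val]'(hlt a₀)) w) := by
        rw [Bool.eq_iff_iff, Bool.and_eq_true]
        exact h7'
      rw [h9, Bool.xor_self] at hf
      exact absurd hf (by decide)

end Pool.Agent.SOS
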