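import Pool.Agent.SOS.AlgDefs
import Pool.Agent.SOC.ModOrder

/-! Project SOS, module AlgStep (size 4): the closures and the step (lists). Use `MO_closB`, `MO_closB_sub` of SOC/ModOrder.lean. -/

set_option autoImplicit false

namespace Pool.Agent.SOS

open Pool.Agent.SOC

variable {M : List (List Bool)} {W : List ℕ}

theorem adjB_comm (i j : ℕ) : adjB M i j = adjB M j i := by
  have h1 : decide (i ≠ j) = decide (j ≠ i) := decide_eq_decide.mpr ⟨fun h => h.symm, fun h => h.symm⟩
  unfold adjB
  rw [h1, Bool.or_comm]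

private theorem algs_ne {a b : ℕ} (h : adjB M a b = true) : a ≠ b := by
  rintro rfl
  unfold adjB at h
  simp at h

private theorem algs_clos {a b x : ℕ} (ha : a ∈ W) (hx : x ∈ W) :
    (∀ z ∈ [a, x], z ∈ clos M W a b x) ∧
    (∀ z ∈ W, ((clos M W a b x).any (fun v => forceB M a b v z)) = true → z ∈ clos M W a b x) ∧
    (∀ X : Set ℕ, (∀ z ∈ [a, x], z ∈ X) →
      (∀ z ∈ W, ∀ A : List ℕ, (∀ y ∈ A, y ∈ X ∧ y ∈ W) → (A.any (fun v => forceB M a b v z)) = true → z ∈ X) →
      ∀ z ∈ clos M W a b x, z ∈ X) := by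
  refine MO_closB (f := fun w S => S.any (fun v => forceB M a b v w)) ?_ ?_
  · intro z A B hAB h
    rw [List.any_eq_true] at h ⊢
    obtain ⟨u, hu, hu2⟩ := h
    exact ⟨u, hAB u hu, hu2⟩
  · intro z hz
    rcases List.mem_pair.mp hz with rfl | rfl
    · exact ha
    · exact hx

/-- PROOF. MO_closB (f monotone in S); `b` is not forced: take X := {z | z ≠ b} (forceB M a b v b = false since adjB M a b). -/
theorem clos_spec {a b x : ℕ} (ha : a ∈ W) (hx : x ∈ W) (hxb : x ≠ b) (hab : adjB M a b = true) :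
    (clos M W a b x).Sublist W ∧ a ∈ clos M W a b x ∧ x ∈ clos M W a b x ∧ b ∉ clos M W a b x ∧
      ∀ v ∈ clos M W a b x, ∀ w ∈ W, w ∉ clos M W a b x → forceB M a b v w = false := by
  obtain ⟨h1, h2, h3⟩ := algs_clos (M := M) (b := b) ha hx
  refine ⟨MO_closB_sub (List.ne_nil_of_mem ha), h1 a (by simp), h1 x (by simp), ?_, ?_⟩
  · intro hb
    refine h3 {z | z ≠ b} ?_ ?_ b hb rfl
    · intro z hz
      rcases List.mem_pair.mp hz with rfl | rfl
      · exact algs_ne hab
      · exact hxb
    · intro z hz A hA h hzb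
      rw [List.any_eq_true] at h
      obtain ⟨u, hu, hu2⟩ := h
      rw [hzb] at hu2
      unfold forceB at hu2
      rw [hab] at hu2
      simp at hu2
  · intro v hv w hw hwc
    by_contra hcon
    have hcon' : forceB M a b v w = true := by simpa using hcon
    refine hwc (h2 w hw ?_)
    rw [List.any_eq_true]
    exact ⟨v, hv, hcon'⟩

/-- PROOF: MO_closB, third part. -/
theorem clos_min {a b x : ℕ} (ha : a ∈ W) (hx : x ∈ W) (X : Set ℕ) (haX : a ∈ X) (hxX : x ∈ X)
    (hX : ∀ v ∈ X, v ∈ W → ∀ w ∈ W, forceB M a b v w = true → w ∈ X) : ∀ z ∈ clos M W a b x, z ∈ X := by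
  obtain ⟨h1, h2, h3⟩ := algs_clos (M := M) (b := b) ha hx
  refine h3 X ?_ ?_
  · intro z hz
    rcases List.mem_pair.mp hz with rfl | rfl
    · exact haX
    · exact hxX
  · intro z hz A hA h
    rw [List.any_eq_true] at h
    obtain ⟨u, hu, hu2⟩ := h
    exact hX u (hA u hu).1 (hA u hu).2 z hz hu2

theorem splitOf_some {a b : ℕ} {A : List ℕ} (h : splitOf M W = some (a, b, A)) :
    a ∈ W ∧ b ∈ W ∧ adjB M a b = true ∧ ∃ x ∈ W, x ≠ a ∧ x ≠ b ∧ A = clos M W a b x ∧ A.length + 2 ≤ W.length := by
  unfold splitOf at h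
  have hmem := List.mem_of_mem_head? (Option.mem_def.mpr h)
  rw [List.mem_flatMap] at hmem
  obtain ⟨a', ha', hmem⟩ := hmem
  rw [List.mem_flatMap] at hmem
  obtain ⟨b', hb', hmem⟩ := hmem
  rw [List.mem_map] at hmem
  obtain ⟨x, hx, he⟩ := hmem
  rw [List.mem_filter] at hx
  obtain ⟨hx, hg⟩ := hx
  simp only [Prod.mk.injEq] at he
  obtain ⟨rfl, rfl, rfl⟩ := he
  unfold goodB at hg
  simp only [Bool.and_eq_true, decide_eq_true_eq] at hg
  obtain ⟨⟨⟨g1, g2⟩, g3⟩, g4⟩ := hg
  exact ⟨ha', hb', g3, x, hx, Ne.symm g1, Ne.symm g2, rfl, g4⟩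

theorem splitOf_none (h : splitOf M W = none) {a b x : ℕ} (ha : a ∈ W) (hb : b ∈ W) (hx : x ∈ W) (hxa : x ≠ a)
    (hxb : x ≠ b) (hab : adjB M a b = true) : W.length ≤ (clos M W a b x).length + 1 := by
  by_contra hcon
  unfold splitOf at h
  rw [List.head?_eq_none_iff] at h
  have hmem : (a, b, clos M W a b x) ∈ (W.flatMap fun a => W.flatMap fun b =>
    (W.filter fun x => goodB M W a b x).map fun x => (a, b, clos M W a b x)) := by
    rw [List.mem_flatMap]
    refine ⟨a, ha, ?_⟩
    rw [List.mem_flatMap]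
    refine ⟨b, hb, ?_⟩
    rw [List.mem_map]
    refine ⟨x, ?_, rfl⟩
    rw [List.mem_filter]
    refine ⟨hx, ?_⟩
    unfold goodB
    simp only [Bool.and_eq_true, decide_eq_true_eq]
    exact ⟨⟨⟨Ne.symm hxa, Ne.symm hxb⟩, hab⟩, by omega⟩
  rw [h] at hmem
  exact absurd hmem (List.not_mem_nil)

private theorem algs_comp (M : List (List Bool)) (W : List ℕ) :
    (∀ z ∈ W.take 1, z ∈ comp M W) ∧
    (∀ z ∈ W, ((comp M W).any (fun v => adjB M v z)) = true → z ∈ comp M W) ∧
    (∀ X : Set ℕ, (∀ z ∈ W.take 1, z ∈ X) →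
      (∀ z ∈ W, ∀ A : List ℕ, (∀ y ∈ A, y ∈ X ∧ y ∈ W) → (A.any (fun v => adjB M v z)) = true → z ∈ X) →
      ∀ z ∈ comp M W, z ∈ X) := by
  refine MO_closB (f := fun w S => S.any (fun v => adjB M v w)) ?_ ?_
  · intro z A B hAB h
    rw [List.any_eq_true] at h ⊢
    obtain ⟨u, hu, hu2⟩ := h
    exact ⟨u, hAB u hu, hu2⟩
  · intro z hz
    exact List.mem_of_mem_take hz

theorem comp_spec (hW : W ≠ []) : (comp M W).Sublist W ∧ comp M W ≠ [] ∧
    ∀ v ∈ comp M W, ∀ w ∈ W, adjB M v w = true → w ∈ comp M W := by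
  obtain ⟨h1, h2, h3⟩ := algs_comp M W
  refine ⟨MO_closB_sub hW, ?_, ?_⟩
  · obtain ⟨c, W', rfl⟩ := List.exists_cons_of_ne_nil hW
    exact List.ne_nil_of_mem (h1 c (by simp))
  · intro v hv w hw hvw
    refine h2 w hw ?_
    rw [List.any_eq_true]
    exact ⟨v, hv, hvw⟩

/-- PROOF: MO_closB, third part: with X := the elements of W reachable from the first element. Statement: a set containing the first
element of W and closed under adjacency inside W contains comp M W. -/
theorem comp_min (X : Set ℕ) (h0 : ∀ w ∈ W.take 1, w ∈ X) (hX : ∀ v ∈ X, v ∈ W → ∀ w ∈ W, adjB M v w = true → w ∈ X) :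
    ∀ z ∈ comp M W, z ∈ X := by
  obtain ⟨h1, h2, h3⟩ := algs_comp M W
  refine h3 X h0 ?_
  intro z hz A hA h
  rw [List.any_eq_true] at h
  obtain ⟨u, hu, hu2⟩ := h
  exact hX u (hA u hu).1 (hA u hu).2 z hz hu2

/-- all pieces are sublists of `W` -/
theorem step_sub : ∀ W' ∈ step M W, W'.Sublist W := by
  intro W' hW'
  unfold step at hW'
  by_cases h1 : W.length ≤ 3
  · rw [if_pos h1] at hW'
    exact absurd hW' List.not_mem_nil
  rw [if_neg h1] at hW'
  have hne : W ≠ [] := by
    rintro rfl
    simp at h1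
  by_cases h2 : (comp M W).length < W.length
  · rw [if_pos h2] at hW'
    rcases List.mem_pair.mp hW' with rfl | rfl
    · exact (comp_spec hne).1
    · exact List.filter_sublist
  rw [if_neg h2] at hW'
  cases hs : splitOf M W with
  | none =>
    rw [hs] at hW'
    rw [List.mem_singleton.mp hW']
  | some p =>
    rw [hs] at hW'
    rcases List.mem_pair.mp hW' with rfl | rfl
    · exact List.filter_sublist
    · exact List.filter_sublist

private theorem algs_len {A : List ℕ} (hW : W.Nodup) (hA : A.Sublist W) :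
    (W.filter (fun w => !decide (w ∈ A))).length + A.length = W.length := by
  have hAn : A.Nodup := hW.sublist hA
  have h1 : (W.filter (fun w => !decide (w ∈ A))).length = (W.toFinset \ A.toFinset).card := by
    rw [← List.toFinset_card_of_nodup (hW.filter _)]
    congr 1
    ext w
    simp
  have h2 : A.length = A.toFinset.card := (List.toFinset_card_of_nodup hAn).symm
  have h3 : W.length = W.toFinset.card := (List.toFinset_card_of_nodup hW).symm
  rw [h1, h2, h3]
  exact Finset.card_sdiff_add_card_eq_card (fun x hx => List.mem_toFinset.mpr (hA.subset (List.mem_toFinset.mp hx)))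

private theorem algs_len1 {A : List ℕ} {b : ℕ} (hW : W.Nodup) (hA : A.Sublist W) (hb : b ∈ W) (hbA : b ∉ A) :
    (W.filter (fun w => decide (w ∈ A) || decide (w = b))).length = A.length + 1 := by
  have hAn : A.Nodup := hW.sublist hA
  have h1 : (W.filter (fun w => decide (w ∈ A) || decide (w = b))).length = (insert b A.toFinset).card := by
    rw [← List.toFinset_card_of_nodup (hW.filter _)]
    congr 1
    ext w
    simp only [List.mem_toFinset, List.mem_filter, Bool.or_eq_true, decide_eq_true_eq, Finset.mem_insert]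
    constructor
    · rintro ⟨_, h | h⟩
      · exact Or.inr h
      · exact Or.inl h
    · rintro (h | h)
      · exact ⟨h ▸ hb, Or.inr h⟩
      · exact ⟨hA.subset h, Or.inl h⟩
  rw [h1, Finset.card_insert_of_notMem (by simpa using hbA), List.toFinset_card_of_nodup hAn]

private theorem algs_len2 {A : List ℕ} {a : ℕ} (hW : W.Nodup) (hA : A.Sublist W) (ha : a ∈ A) :
    (W.filter (fun w => !decide (w ∈ A) || decide (w = a))).length + A.length = W.length + 1 := by
  have h1 : (W.filter (fun w => !decide (w ∈ A) || decide (w = a))).length =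
      (W.filter (fun w => !decide (w ∈ A))).length + 1 := by
    rw [← List.toFinset_card_of_nodup (hW.filter _), ← List.toFinset_card_of_nodup (hW.filter _)]
    have hn : a ∉ (W.filter (fun w => !decide (w ∈ A))).toFinset := by
      simp [ha]
    rw [← Finset.card_insert_of_notMem hn]
    congr 1
    ext w
    simp only [List.mem_toFinset, List.mem_filter, Bool.or_eq_true, decide_eq_true_eq, Finset.mem_insert,
      Bool.not_eq_true', decide_eq_false_iff_not]
    constructor
    · rintro ⟨h0, h | h⟩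
      · exact Or.inr ⟨h0, h⟩
      · exact Or.inl h
    · rintro (h | h)
      · exact ⟨h ▸ hA.subset ha, Or.inr h⟩
      · exact ⟨h.1, Or.inl h.2⟩
  have h2 := algs_len hW hA
  omega

private theorem algs_two {A : List ℕ} {a x : ℕ} (ha : a ∈ A) (hx : x ∈ A) (hxa : x ≠ a) : 2 ≤ A.length := by
  rcases A with _ | ⟨p, _ | ⟨q, A⟩⟩
  · exact absurd ha List.not_mem_nil
  · rw [List.mem_singleton] at ha hx
    exact absurd (hx.trans ha.symm) hxa
  · simp

/-- the four cases of a step -/
private theorem algs_cases (hW : W.Nodup) :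
    (W.length ≤ 3 ∧ step M W = []) ∨
    (4 ≤ W.length ∧ ∃ C D : List ℕ, step M W = [C, D] ∧ 1 ≤ C.length ∧ C.length < W.length ∧
      D.length + C.length = W.length) ∨
    (4 ≤ W.length ∧ W.length ≤ (comp M W).length ∧ splitOf M W = none ∧ step M W = [W]) ∨
    (4 ≤ W.length ∧ ∃ C D : List ℕ, ∃ n : ℕ, step M W = [C, D] ∧ 2 ≤ n ∧ n + 2 ≤ W.length ∧
      C.length = n + 1 ∧ D.length + n = W.length + 1) := by
  unfold step
  by_cases h1 : W.length ≤ 3
  · exact Or.inl ⟨h1, if_pos h1⟩
  rw [if_neg h1]
  have hne : W ≠ [] := by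
    rintro rfl
    simp at h1
  obtain ⟨c1, c2, c3⟩ := comp_spec (M := M) hne
  have hpos : 1 ≤ (comp M W).length := List.length_pos_iff.mpr c2
  by_cases h2 : (comp M W).length < W.length
  · rw [if_pos h2]
    exact Or.inr (Or.inl ⟨by omega, _, _, rfl, hpos, h2, algs_len hW c1⟩)
  rw [if_neg h2]
  cases hs : splitOf M W with
  | none => exact Or.inr (Or.inr (Or.inl ⟨by omega, by omega, rfl, rfl⟩))
  | some p =>
    obtain ⟨a, b, A⟩ := p
    obtain ⟨ha, hb, hab, x, hx, hxa, hxb, hA, hlen⟩ := splitOf_some hs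
    obtain ⟨s1, s2, s3, s4, s5⟩ := clos_spec ha hx hxb hab
    rw [← hA] at s1 s2 s3 s4
    refine Or.inr (Or.inr (Or.inr ⟨by omega, _, _, A.length, rfl, algs_two s2 s3 hxa, hlen, ?_, ?_⟩))
    · exact algs_len1 hW s1 hb s4
    · exact algs_len2 hW s1 s2

/-- the potential `∑ (|W| - 2)` (natural subtraction) does not increase. PROOF: the three cases. (comp: 1 ≤ |C| < |W|, |W| ≥ 4. split: the two
lists have |A| + 1 and |W| - |A| + 1 elements, W.Nodup, 2 ≤ |A| ≤ |W| - 2.) -/
theorem step_pot (hW : W.Nodup) : ((step M W).map (fun W' => W'.length - 2)).sum ≤ W.length - 2 := by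
  rcases algs_cases (M := M) hW with ⟨h1, h2⟩ | ⟨h1, C, D, h2, h3, h4, h5⟩ | ⟨h1, h2, h3, h4⟩ |
    ⟨h1, C, D, n, h2, h3, h4, h5, h6⟩
  · rw [h2]
    simp
  · rw [h2]
    simp only [List.map_cons, List.map_nil, List.sum_cons, List.sum_nil]
    omega
  · rw [h4]
    simp only [List.map_cons, List.map_nil, List.sum_cons, List.sum_nil]
    omega
  · rw [h2]
    simp only [List.map_cons, List.map_nil, List.sum_cons, List.sum_nil]
    omega

/-- either the piece is final or all new pieces are smaller -/
theorem step_lt (hW : W.Nodup) : step M W = [W] ∨ ∀ W' ∈ step M W, W'.length < W.length := by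
  rcases algs_cases (M := M) hW with ⟨h1, h2⟩ | ⟨h1, C, D, h2, h3, h4, h5⟩ | ⟨h1, h2, h3, h4⟩ |
    ⟨h1, C, D, n, h2, h3, h4, h5, h6⟩
  · right
    intro W' hW'
    rw [h2] at hW'
    exact absurd hW' List.not_mem_nil
  · right
    intro W' hW'
    rw [h2] at hW'
    rcases List.mem_pair.mp hW' with rfl | rfl <;> omega
  · exact Or.inl h4
  · right
    intro W' hW'
    rw [h2] at hW'
    rcases List.mem_pair.mp hW' with rfl | rfl <;> omega

/-- PROOF: if all new pieces were smaller, [W] would not occur. -/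
theorem step_final (hW : W.Nodup) (h : step M W = [W]) : 4 ≤ W.length ∧ W.length ≤ (comp M W).length ∧
    splitOf M W = none := by
  rcases algs_cases (M := M) hW with ⟨h1, h2⟩ | ⟨h1, C, D, h2, h3, h4, h5⟩ | ⟨h1, h2, h3, h4⟩ |
    ⟨h1, C, D, n, h2, h3, h4, h5, h6⟩
  · rw [h2] at h
    simp at h
  · rw [h2] at h
    simp at h
  · exact ⟨h1, h2, h3⟩
  · rw [h2] at h
    simp at h

private theorem algs_succ (k : ℕ) : rounds M (k + 1) = (rounds M k).flatMap (step M) := by
  unfold rounds
  rw [Function.iterate_succ_apply']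

/-- PROOF: by induction on k. -/
theorem rounds_sub {k : ℕ} {W : List ℕ} (h : W ∈ rounds M k) : W.Sublist (List.range M.length) := by
  induction k generalizing W with
  | zero =>
    have h' : W ∈ [List.range M.length] := h
    rw [List.mem_singleton.mp h']
  | succ k ih =>
    rw [algs_succ, List.mem_flatMap] at h
    obtain ⟨W0, h0, h1⟩ := h
    exact (step_sub W h1).trans (ih h0)

private theorem algs_nodup {k : ℕ} {W : List ℕ} (h : W ∈ rounds M k) : W.Nodup :=
  List.nodup_range.sublist (rounds_sub h)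

/-- PROOF: by induction on k, for all pieces W: step M W = [W] ∨ W.length + k ≤ M.length. -/
theorem rounds_final {W : List ℕ} (h : W ∈ rounds M M.length) : W.length ≤ 3 ∨ step M W = [W] := by
  have key : ∀ k : ℕ, ∀ W ∈ rounds M k, step M W = [W] ∨ W.length + k ≤ M.length := by
    intro k
    induction k with
    | zero =>
      intro W hW
      right
      have h' : W ∈ [List.range M.length] := hW
      rw [List.mem_singleton.mp h', List.length_range]
      omega
    | succ k ih =>
      intro W hW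
      rw [algs_succ, List.mem_flatMap] at hW
      obtain ⟨W0, h0, h1⟩ := hW
      rcases step_lt (M := M) (algs_nodup h0) with h2 | h2
      · rw [h2, List.mem_singleton] at h1
        rw [h1]
        exact Or.inl h2
      · rcases ih W0 h0 with h3 | h3
        · rw [h3, List.mem_singleton] at h1
          rw [h1]
          exact Or.inl h3
        · right
          have := h2 W h1
          omega
  rcases key M.length W h with h1 | h1
  · exact Or.inr h1
  · left
    omega

private theorem algs_sum (f : List ℕ → ℕ) : ∀ L : List (List ℕ), (∀ W ∈ L, ((step M W).map f).sum ≤ f W) →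
    ((L.flatMap (step M)).map f).sum ≤ (L.map f).sum := by
  intro L
  induction L with
  | nil => simp
  | cons W L ih =>
    intro hL
    rw [List.flatMap_cons, List.map_append, List.sum_append, List.map_cons, List.sum_cons]
    exact Nat.add_le_add (hL W (List.mem_cons_self)) (ih (fun W' hW' => hL W' (List.mem_cons_of_mem _ hW')))

/-- PROOF: by induction on k with step_pot. -/
theorem rounds_pot (k : ℕ) : ((rounds M k).map (fun W' => W'.length - 2)).sum ≤ M.length := by
  induction k with
  | zero =>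
    have h : rounds M 0 = [List.range M.length] := rfl
    rw [h]
    simp only [List.map_cons, List.map_nil, List.sum_cons, List.sum_nil, List.length_range]
    omega
  | succ k ih =>
    rw [algs_succ]
    exact (algs_sum (fun W' => W'.length - 2) (rounds M k) (fun W hW => step_pot (algs_nodup hW))).trans ih

end Pool.Agent.SOS
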