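import Pool.Agent.SOS.OrdList

/-! Project SOS, module Rot (size 3): rotating the cyclic order. -/

set_option autoImplicit false

open Set

namespace Pool.Agent.SOS

open Pool.Agent.SOC Pool.Agent.SOD

variable {V : Type} {G : SimpleGraph V}

/-- bounded positions -/
theorem rot_bd [Finite V] (r : V → ℤ) : ∃ M : ℤ, ∀ x, -M ≤ r x ∧ r x ≤ M := by
  obtain ⟨M, hM⟩ := (Set.finite_range (fun x => |r x|)).bddAbove
  refine ⟨M, fun x => ?_⟩
  exact abs_le.1 (hM ⟨x, rfl⟩)

/-- the rotation of one position -/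
def rot_s (M v y : ℤ) : ℤ := if v < y then y - (2 * M + 1) else y

theorem rot_key {M v a b x : ℤ} (ha : -M ≤ a ∧ a ≤ M) (hb : -M ≤ b ∧ b ≤ M) (hx : -M ≤ x ∧ x ≤ M)
    (_hab : a ≠ b) (hax : a ≠ x) (hbx : b ≠ x) :
    ((v < a ↔ v < b) → (((rot_s M v a < rot_s M v x ∧ rot_s M v x < rot_s M v b) ∨
      (rot_s M v b < rot_s M v x ∧ rot_s M v x < rot_s M v a)) ↔ ((a < x ∧ x < b) ∨ (b < x ∧ x < a)))) ∧
    (¬ (v < a ↔ v < b) → (((rot_s M v a < rot_s M v x ∧ rot_s M v x < rot_s M v b) ∨
      (rot_s M v b < rot_s M v x ∧ rot_s M v x < rot_s M v a)) ↔ ¬ ((a < x ∧ x < b) ∨ (b < x ∧ x < a)))) := by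
  unfold rot_s
  split_ifs <;> omega

/-- PROOF: let |r x| ≤ M for all x (V finite). r' x := r x - 2M - 1 if r v < r x, r' x := r x otherwise. The elements above v are
moved below all others; crossing of chords with four different end points does not change (16 cases, each by linear
arithmetic: `omega` after `unfold crF` and splitting the ifs). -/
theorem rot_max [Finite V] (r : V → ℤ) (hr : Function.Injective r) (v : V) :
    ∃ r' : V → ℤ, Function.Injective r' ∧ (∀ w, w ≠ v → r' w < r' v) ∧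
      ∀ {a b c d : V}, a ≠ b → c ≠ d → a ≠ c → a ≠ d → b ≠ c → b ≠ d → (crF r a b c d ↔ crF r' a b c d) := by
  obtain ⟨M, hM⟩ := rot_bd r
  refine ⟨fun x => rot_s M (r v) (r x), ?_, ?_, ?_⟩
  · intro x y h
    apply hr
    have h1 := hM x
    have h2 := hM y
    dsimp only at h
    unfold rot_s at h
    split_ifs at h <;> omega
  · intro w hw
    have h1 := hM w
    have h2 := hM v
    have h3 : r w ≠ r v := hr.ne hw
    dsimp only
    unfold rot_s
    split_ifs <;> omega
  · intro a b c d hab hcd hac had hbc hbd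
    have h1 := rot_key (v := r v) (hM a) (hM b) (hM c) (hr.ne hab) (hr.ne hac) (hr.ne hbc)
    have h2 := rot_key (v := r v) (hM a) (hM b) (hM d) (hr.ne hab) (hr.ne had) (hr.ne hbd)
    unfold crF
    dsimp only
    by_cases h : (r v < r a ↔ r v < r b)
    · rw [h1.1 h, h2.1 h]
    · rw [h1.2 h, h2.2 h]
      exact not_congr not_iff_not.symm

theorem crF_neg (r : V → ℤ) (a b c d : V) : crF (fun x => - r x) a b c d ↔ crF r a b c d := by
  have key : ∀ x y z : ℤ, ((-x < -z ∧ -z < -y) ∨ (-y < -z ∧ -z < -x)) ↔ ((x < z ∧ z < y) ∨ (y < z ∧ z < x)) := by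
    intro x y z
    omega
  unfold crF
  rw [key, key]

/-- PROOF: same with r' x := r x + 2M + 1 if r x < r v; or rot_max for -r (crF (-r) = crF r). -/
theorem rot_min [Finite V] (r : V → ℤ) (hr : Function.Injective r) (v : V) :
    ∃ r' : V → ℤ, Function.Injective r' ∧ (∀ w, w ≠ v → r' v < r' w) ∧
      ∀ {a b c d : V}, a ≠ b → c ≠ d → a ≠ c → a ≠ d → b ≠ c → b ≠ d → (crF r a b c d ↔ crF r' a b c d) := by
  obtain ⟨s, h1, h2, h3⟩ := rot_max (fun x => - r x) (fun x y h => hr (neg_injective h)) v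
  refine ⟨fun x => - s x, fun x y h => h1 (neg_injective h), fun w hw => neg_lt_neg (h2 w hw), ?_⟩
  intro a b c d hab hcd hac had hbc hbd
  rw [crF_neg s a b c d, ← h3 hab hcd hac had hbc hbd, crF_neg r a b c d]

/-- placing the elements of `A` (in the order r₁) before the others (in the order r₂). -/
theorem glue [Finite V] (r₁ r₂ : V → ℤ) (h₁ : Function.Injective r₁) (h₂ : Function.Injective r₂) (A : Set V) :
    ∃ r : V → ℤ, Function.Injective r ∧ (∀ x ∈ A, ∀ y ∈ A, (r x < r y ↔ r₁ x < r₁ y)) ∧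
      (∀ x, x ∉ A → ∀ y, y ∉ A → (r x < r y ↔ r₂ x < r₂ y)) ∧ ∀ x ∈ A, ∀ y, y ∉ A → r x < r y := by
  classical
  obtain ⟨M₁, hM₁⟩ := rot_bd r₁
  obtain ⟨M₂, hM₂⟩ := rot_bd r₂
  refine ⟨fun x => if x ∈ A then r₁ x - (M₁ + M₂ + 1) else r₂ x, ?_, ?_, ?_, ?_⟩
  · intro x y h
    have a1 := hM₁ x
    have a2 := hM₁ y
    have b1 := hM₂ x
    have b2 := hM₂ y
    dsimp only at h
    split_ifs at h
    · apply h₁; omega
    · omega
    · omega
    · exact h₂ h
  · intro x hx y hy
    dsimp only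
    rw [if_pos hx, if_pos hy]
    omega
  · intro x hx y hy
    dsimp only
    rw [if_neg hx, if_neg hy]
  · intro x hx y hy
    have a1 := hM₁ x
    have b2 := hM₂ y
    dsimp only
    rw [if_pos hx, if_neg hy]
    omega

theorem rot_memA {A : Set V} {cr T : V → V → V → V → Prop} (hT : QT (restr G A) cr T) {a b c d : V}
    (h : T a b c d) : a ∈ A ∧ b ∈ A ∧ c ∈ A ∧ d ∈ A :=
  ⟨(hT.adj h).2.1, (hT.adj (hT.swap₁ h)).2.1, (hT.adj h).2.2, (hT.adj (hT.swap₁ (hT.swap₂ h))).2.1⟩

/-- disjoint unions. PROOF: glue; T := T₁ ∨ T₂ (T₁ a b c d implies a, b, c, d ∈ A). trans, ferrers: both quartets contain u resp. a, so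
both are in the same part. some: crossing edges ac, bd: both in A or both outside of A; an edge in A and an edge outside do not
cross. -/
theorem sor_union [Finite V] (A : Set V) (hA : ∀ {a b}, G.Adj a b → (a ∈ A ↔ b ∈ A)) (h1 : SOR (restr G A))
    (h2 : SOR (restr G Aᶜ)) : SOR G := by
  obtain ⟨r₁, T₁, hr₁, hT₁⟩ := h1
  obtain ⟨r₂, T₂, hr₂, hT₂⟩ := h2
  obtain ⟨r, hr, g1, g2, g3⟩ := glue r₁ r₂ hr₁ hr₂ A
  have m1 : ∀ {a b c d}, T₁ a b c d → a ∈ A ∧ b ∈ A ∧ c ∈ A ∧ d ∈ A := fun h => rot_memA hT₁ h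
  have m2 : ∀ {a b c d}, T₂ a b c d → a ∉ A ∧ b ∉ A ∧ c ∉ A ∧ d ∉ A := fun h => rot_memA hT₂ h
  have c1 : ∀ {a b c d}, a ∈ A → b ∈ A → c ∈ A → d ∈ A → (crF r a b c d ↔ crF r₁ a b c d) := by
    intro a b c d ha hb hc hd
    unfold crF
    rw [g1 a ha c hc, g1 c hc b hb, g1 b hb c hc, g1 c hc a ha, g1 a ha d hd, g1 d hd b hb, g1 b hb d hd,
      g1 d hd a ha]
  have c2 : ∀ {a b c d}, a ∉ A → b ∉ A → c ∉ A → d ∉ A → (crF r a b c d ↔ crF r₂ a b c d) := by
    intro a b c d ha hb hc hd
    unfold crF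
    rw [g2 a ha c hc, g2 c hc b hb, g2 b hb c hc, g2 c hc a ha, g2 a ha d hd, g2 d hd b hb, g2 b hb d hd,
      g2 d hd a ha]
  refine ⟨r, fun a b c d => T₁ a b c d ∨ T₂ a b c d, hr, ?_⟩
  exact
    { swap₁ := fun h => h.imp hT₁.swap₁ hT₂.swap₁
      swap₂ := fun h => h.imp hT₁.swap₂ hT₂.swap₂
      ne := fun h => h.elim hT₁.ne hT₂.ne
      adj := fun h => h.elim (fun h => (hT₁.adj h).1) (fun h => (hT₂.adj h).1)
      nocross := by
        rintro a b c d (h | h)
        · obtain ⟨k1, k2, k3, k4⟩ := m1 h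
          rw [c1 k1 k2 k3 k4]
          exact hT₁.nocross h
        · obtain ⟨k1, k2, k3, k4⟩ := m2 h
          rw [c2 k1 k2 k3 k4]
          exact hT₂.nocross h
      some := by
        intro a b c d h1 h2 h3 h4 h5 h6 h7
        by_cases ha : a ∈ A
        · have hc := (hA h1).1 ha
          by_cases hb : b ∈ A
          · have hd := (hA h2).1 hb
            rw [c1 ha hc hb hd] at h7
            exact (hT₁.some ⟨h1, ha, hc⟩ ⟨h2, hb, hd⟩ h3 h4 h5 h6 h7).imp Or.inl Or.inl
          · have hd : d ∉ A := fun hd => hb ((hA h2).2 hd)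
            exfalso
            have e1 := g3 a ha b hb
            have e2 := g3 a ha d hd
            have e3 := g3 c hc b hb
            have e4 := g3 c hc d hd
            unfold crF at h7
            omega
        · have hc : c ∉ A := fun hc => ha ((hA h1).2 hc)
          by_cases hb : b ∈ A
          · have hd := (hA h2).1 hb
            exfalso
            have e1 := g3 b hb a ha
            have e2 := g3 b hb c hc
            have e3 := g3 d hd a ha
            have e4 := g3 d hd c hc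
            unfold crF at h7
            omega
          · have hd : d ∉ A := fun hd => hb ((hA h2).2 hd)
            rw [c2 ha hc hb hd] at h7
            exact (hT₂.some ⟨h1, ha, hc⟩ ⟨h2, hb, hd⟩ h3 h4 h5 h6 h7).imp Or.inr Or.inr
      notboth := by
        rintro a b c d (h | h) (h' | h')
        · exact hT₁.notboth h h'
        · exact (m2 h').1 (m1 h).1
        · exact (m2 h).1 (m1 h').1
        · exact hT₂.notboth h h'
      trans := by
        rintro u w x y z (h | h) (h' | h') hne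
        · exact Or.inl (hT₁.trans h h' hne)
        · exact absurd (m1 h).1 (m2 h').1
        · exact absurd (m1 h').1 (m2 h).1
        · exact Or.inr (hT₂.trans h h' hne)
      ferrers := by
        rintro a b x y x' y' (h | h) (h' | h')
        · exact (hT₁.ferrers h h').imp Or.inl Or.inl
        · exact absurd (m1 h).1 (m2 h').1
        · exact absurd (m1 h').1 (m2 h).1
        · exact (hT₂.ferrers h h').imp Or.inr Or.inr }

end Pool.Agent.SOS
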