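import Pool.Agent.SOS.SplDefs

/-! Project SOS, module SplA (size 4): symmetries and transitivity of the composed quartets. -/

set_option autoImplicit false

open Set

namespace Pool.Agent.SOS

open Pool.Agent.SOC Pool.Agent.SOD

variable {V : Type} {G : SimpleGraph V} {A : Set V} {a₀ b₀ : V} {cr₁ cr₂ T₁ T₂ : V → V → V → V → Prop}

private theorem spla_in {x : V} (h : x ∈ A) : prA A b₀ x = x := by
  unfold prA
  rw [if_pos h]

private theorem spla_out {x : V} (h : x ∉ A) : prA A b₀ x = b₀ := by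
  unfold prA
  rw [if_neg h]

private theorem spla_swap1 (q1 : QT (restr G (A ∪ {b₀})) cr₁ T₁) {a b c d : V}
    (h : TS1 G A a₀ b₀ T₁ a b c d) : TS1 G A a₀ b₀ T₁ b a c d := by
  obtain ⟨h1, h2, h3⟩ := h
  refine ⟨?_, ?_, q1.swap₁ h3⟩
  · tauto
  · intro x hx hxA
    exact h2 x (by tauto) hxA

private theorem spla_swap2 (q1 : QT (restr G (A ∪ {b₀})) cr₁ T₁) {a b c d : V}
    (h : TS1 G A a₀ b₀ T₁ a b c d) : TS1 G A a₀ b₀ T₁ c d a b := by
  obtain ⟨h1, h2, h3⟩ := h
  refine ⟨?_, ?_, q1.swap₂ h3⟩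
  · tauto
  · intro x hx hxA
    exact h2 x (by tauto) hxA

private theorem spla_ne (q1 : QT (restr G (A ∪ {b₀})) cr₁ T₁) {a b c d : V}
    (h : TS1 G A a₀ b₀ T₁ a b c d) : a ≠ b := by
  rintro rfl
  exact q1.ne h.2.2 rfl

private theorem spla_adj (hs : IsSpl G A a₀ b₀) (q1 : QT (restr G (A ∪ {b₀})) cr₁ T₁) {a b c d : V}
    (h : TS1 G A a₀ b₀ T₁ a b c d) : G.Adj a c := by
  have h1 : G.Adj (prA A b₀ a) (prA A b₀ c) := (q1.adj h.2.2).1
  by_cases ha : a ∈ A
  · by_cases hc : c ∈ A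
    · rw [spla_in ha, spla_in hc] at h1
      exact h1
    · rw [spla_in ha, spla_out hc] at h1
      exact (hs.rect ha hc).2 ⟨h1, h.2.1 c (by tauto) hc⟩
  · by_cases hc : c ∈ A
    · rw [spla_out ha, spla_in hc] at h1
      exact ((hs.rect hc ha).2 ⟨h1.symm, h.2.1 a (by tauto) ha⟩).symm
    · rw [spla_out ha, spla_out hc] at h1
      exact absurd rfl h1.ne

theorem ts_swap1 (q1 : QT (restr G (A ∪ {b₀})) cr₁ T₁) (q2 : QT (restr G (Aᶜ ∪ {a₀})) cr₂ T₂) {a b c d : V}
    (h : TS G A a₀ b₀ T₁ T₂ a b c d) : TS G A a₀ b₀ T₁ T₂ b a c d := by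
  rcases h with h | h | h
  · exact Or.inl (spla_swap1 q1 h)
  · exact Or.inr (Or.inl (spla_swap1 q2 h))
  · refine Or.inr (Or.inr ?_)
    obtain ⟨h1, h2, h3⟩ := h
    refine ⟨h1.symm, h2, ?_⟩
    tauto

theorem ts_swap2 (q1 : QT (restr G (A ∪ {b₀})) cr₁ T₁) (q2 : QT (restr G (Aᶜ ∪ {a₀})) cr₂ T₂) {a b c d : V}
    (h : TS G A a₀ b₀ T₁ T₂ a b c d) : TS G A a₀ b₀ T₁ T₂ c d a b := by
  rcases h with h | h | h
  · exact Or.inl (spla_swap2 q1 h)
  · exact Or.inr (Or.inl (spla_swap2 q2 h))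
  · refine Or.inr (Or.inr ?_)
    obtain ⟨h1, h2, h3⟩ := h
    refine ⟨h2, h1, ?_⟩
    tauto

/-- PROOF: TS1: the projections are different by q1.ne. -/
theorem ts_ne (q1 : QT (restr G (A ∪ {b₀})) cr₁ T₁) (q2 : QT (restr G (Aᶜ ∪ {a₀})) cr₂ T₂) {a b c d : V}
    (h : TS G A a₀ b₀ T₁ T₂ a b c d) : a ≠ b := by
  rcases h with h | h | h
  · exact spla_ne q1 h
  · exact spla_ne q2 h
  · exact h.1

/-- PROOF: TS1: both in A: q1.adj. a ∈ A, c ∉ A: a ~ b₀ by q1.adj, a₀ ~ c: hs.rect. TS2: hs.rect. -/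
theorem ts_adj (hs : IsSpl G A a₀ b₀) (q1 : QT (restr G (A ∪ {b₀})) cr₁ T₁)
    (q2 : QT (restr G (Aᶜ ∪ {a₀})) cr₂ T₂) {a b c d : V} (h : TS G A a₀ b₀ T₁ T₂ a b c d) : G.Adj a c := by
  rcases h with h | h | h
  · exact spla_adj hs q1 h
  · exact spla_adj hs.symm q2 h
  · obtain ⟨h1, h2, (h | h)⟩ := h
    · exact (hs.rect h.1 h.2.2.1).2 ⟨h.2.2.2.2.1, h.2.2.2.2.2.2.1⟩
    · exact ((hs.rect h.2.2.1 h.1).2 ⟨h.2.2.2.2.2.2.1, h.2.2.2.2.1⟩).symm

private theorem spla_mc {x : V} : x ∈ Aᶜ ↔ x ∉ A := Iff.rfl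

/-- PROOF: exactly one of TS1 for A, TS1 for Aᶜ, TS2 can hold for four elements (numbers of elements in A: ≥ 3, ≤ 1, 2; TS1 with
repeated elements is impossible by q1.ne, q1.adj). TS2: T a b c d has {a,b}, {c,d} on different sides, T a d b c has {a,d}, {b,c} on
different sides. -/
theorem ts_notboth (q1 : QT (restr G (A ∪ {b₀})) cr₁ T₁) (q2 : QT (restr G (Aᶜ ∪ {a₀})) cr₂ T₂) {a b c d : V}
    (h : TS G A a₀ b₀ T₁ T₂ a b c d) : ¬ TS G A a₀ b₀ T₁ T₂ a d b c := by
  intro h'
  rcases h with h | h | h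
  · rcases h' with h' | h' | h'
    · exact q1.notboth h.2.2 h'.2.2
    · have e1 := h.1
      have e2 := h'.1
      simp only [spla_mc] at e2
      tauto
    · have e1 := h.1
      have e2 := h'.2.2
      tauto
  · rcases h' with h' | h' | h'
    · have e1 := h.1
      have e2 := h'.1
      simp only [spla_mc] at e1
      tauto
    · exact q2.notboth h.2.2 h'.2.2
    · have e1 := h.1
      have e2 := h'.2.2
      simp only [spla_mc] at e1
      tauto
  · rcases h' with h' | h' | h'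
    · have e1 := h.2.2
      have e2 := h'.1
      tauto
    · have e1 := h.2.2
      have e2 := h'.1
      simp only [spla_mc] at e2
      tauto
    · have e1 := h.2.2
      have e2 := h'.2.2
      tauto

/-- the first quartet is TS1 for A -/
private theorem spla_tr1 (hs : IsSpl G A a₀ b₀) (q1 : QT (restr G (A ∪ {b₀})) cr₁ T₁) {u w x y z : V}
    (h : TS1 G A a₀ b₀ T₁ u w x y)
    (h' : TS G A a₀ b₀ T₁ T₂ u w y z) (hxz : x ≠ z) : TS G A a₀ b₀ T₁ T₂ u w x z := by
  rcases h' with h' | h' | h'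
  · by_cases hn : x ∈ A ∨ z ∈ A
    · left
      refine ⟨?_, ?_, ?_⟩
      · have e1 := h.1
        have e2 := h'.1
        tauto
      · intro t ht htA
        rcases ht with ht | ht | ht | ht
        · exact h.2.1 t (by tauto) htA
        · exact h.2.1 t (by tauto) htA
        · exact h.2.1 t (by tauto) htA
        · exact h'.2.1 t (by tauto) htA
      · refine q1.trans h.2.2 h'.2.2 ?_
        intro heq
        by_cases hx : x ∈ A
        · by_cases hz : z ∈ A
          · rw [spla_in hx, spla_in hz] at heq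
            exact hxz heq
          · rw [spla_in hx, spla_out hz] at heq
            rw [heq] at hx
            exact hs.hb hx
        · by_cases hz : z ∈ A
          · rw [spla_out hx, spla_in hz] at heq
            rw [← heq] at hz
            exact hs.hb hz
          · tauto
    · right
      right
      have hx : x ∉ A := by tauto
      have hz : z ∉ A := by tauto
      have e1 := h.1
      have hu : u ∈ A := by tauto
      have hw : w ∈ A := by tauto
      have h3 := h.2.2
      have a1 : G.Adj (prA A b₀ u) (prA A b₀ x) := (q1.adj h3).1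
      have a2 : G.Adj (prA A b₀ w) (prA A b₀ x) := (q1.adj (q1.swap₁ h3)).1
      rw [spla_in hu, spla_out hx] at a1
      rw [spla_in hw, spla_out hx] at a2
      refine ⟨spla_ne q1 h, hxz, Or.inl ⟨hu, hw, hx, hz, a1, a2, h.2.1 x (by tauto) hx, h'.2.1 z (by tauto) hz⟩⟩
  · have e1 := h.1
    have e2 := h'.1
    simp only [spla_mc] at e2
    tauto
  · have e1 := h.1
    obtain ⟨_, _, (h2 | h2)⟩ := h'
    · obtain ⟨hu, hw, hy, hz, _, _, _, haz⟩ := h2
      have hx : x ∈ A := by tauto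
      left
      refine ⟨Or.inl ⟨hu, hw, Or.inl hx⟩, ?_, ?_⟩
      · intro t ht htA
        rcases ht with ht | ht | ht | ht
        · exact h.2.1 t (by tauto) htA
        · exact h.2.1 t (by tauto) htA
        · exact h.2.1 t (by tauto) htA
        · rw [ht]
          exact haz
      · have h3 := h.2.2
        rw [spla_out hy] at h3
        rw [spla_out hz]
        exact h3
    · tauto

/-- the first quartet is TS2, the second one is TS1 for A -/
private theorem spla_tr2 {u w x y z : V}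
    (h : TS2 G A a₀ b₀ u w x y)
    (h' : TS1 G A a₀ b₀ T₁ u w y z) : TS G A a₀ b₀ T₁ T₂ u w x z := by
  have e2 := h'.1
  obtain ⟨_, _, (h2 | h2)⟩ := h
  · obtain ⟨hu, hw, hx, hy, _, _, hax, _⟩ := h2
    have hz : z ∈ A := by tauto
    left
    refine ⟨Or.inl ⟨hu, hw, Or.inr hz⟩, ?_, ?_⟩
    · intro t ht htA
      rcases ht with ht | ht | ht | ht
      · exact h'.2.1 t (by tauto) htA
      · exact h'.2.1 t (by tauto) htA
      · rw [ht]
        exact hax
      · exact h'.2.1 t (by tauto) htA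
    · have h3 := h'.2.2
      rw [spla_out hy] at h3
      rw [spla_out hx]
      exact h3
  · tauto

/-- PROOF. (u w | x y), (u w | y z), x ≠ z. u, w on different sides of the split, and one of x, y, z in the minority ..: a quartet with
two and two and mixed pairs is impossible. So: number of elements of {u,w,x,y,z} outside of A (WLOG ≤ 2 by ts_comm, IsSpl.symm):
0, 1: both quartets are TS1 for A, q1.trans (πx ≠ πz since at most one is outside). Two: {x,y} outside: the second quartet is TS1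
for A with y ↦ b₀, and T u w x z projects to the same quadruple (u, w, b₀, z). {y,z}: symmetric (use swaps). {x,z} outside: u, w ∈ A
attached (adjacent to b₀), x, z attached: TS2. {u,w} outside: both quartets are TS2: x, y, z ∈ A attached, so TS2 for (u w | x z).
One of u, w and one of x, y, z outside: one of the two quartets contains both and is mixed two and two: impossible (for y: both;
for x: the first; for z: the second). -/
theorem ts_trans (hs : IsSpl G A a₀ b₀) (q1 : QT (restr G (A ∪ {b₀})) cr₁ T₁)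
    (q2 : QT (restr G (Aᶜ ∪ {a₀})) cr₂ T₂) {u w x y z : V} (h : TS G A a₀ b₀ T₁ T₂ u w x y)
    (h' : TS G A a₀ b₀ T₁ T₂ u w y z) (hxz : x ≠ z) : TS G A a₀ b₀ T₁ T₂ u w x z := by
  rcases h with h | h | h
  · exact spla_tr1 hs q1 h h' hxz
  · rw [ts_comm] at h' ⊢
    exact spla_tr1 hs.symm q2 h h' hxz
  · rcases h' with h' | h' | h'
    · exact spla_tr2 h h'
    · have h2 : TS2 G Aᶜ b₀ a₀ u w x y := by
        obtain ⟨k1, k2, k3⟩ := h
        refine ⟨k1, k2, ?_⟩
        rcases k3 with k | k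
        · exact Or.inr ⟨not_not.2 k.1, not_not.2 k.2.1, k.2.2.1, k.2.2.2.1, k.2.2.2.2.1.symm,
            k.2.2.2.2.2.1.symm, k.2.2.2.2.2.2.1.symm, k.2.2.2.2.2.2.2.symm⟩
        · exact Or.inl ⟨k.1, k.2.1, not_not.2 k.2.2.1, not_not.2 k.2.2.2.1, k.2.2.2.2.1.symm,
            k.2.2.2.2.2.1.symm, k.2.2.2.2.2.2.1.symm, k.2.2.2.2.2.2.2.symm⟩
      rw [ts_comm]
      exact spla_tr2 h2 h'
    · right
      right
      obtain ⟨k1, k2, k3⟩ := h
      obtain ⟨l1, l2, l3⟩ := h'
      refine ⟨k1, hxz, ?_⟩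
      tauto

end Pool.Agent.SOS
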