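import Pool.Agent.SOS.Defs

/-! Project SOS, module SplDefs: the composed quartets. -/

set_option autoImplicit false

open Set

namespace Pool.Agent.SOS

open Pool.Agent.SOC Pool.Agent.SOD

variable {V : Type} {G : SimpleGraph V}

open Classical in
/-- the projection to `A ∪ {b₀}` -/
noncomputable def prA (A : Set V) (b₀ x : V) : V := if x ∈ A then x else b₀

/-- at most one element is outside of `A`: `T₁` after projection -/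
def TS1 (G : SimpleGraph V) (A : Set V) (a₀ b₀ : V) (T₁ : V → V → V → V → Prop) (a b c d : V) : Prop :=
  ((a ∈ A ∧ b ∈ A ∧ (c ∈ A ∨ d ∈ A)) ∨ (c ∈ A ∧ d ∈ A ∧ (a ∈ A ∨ b ∈ A))) ∧
    (∀ x, (x = a ∨ x = b ∨ x = c ∨ x = d) → x ∉ A → G.Adj a₀ x) ∧
    T₁ (prA A b₀ a) (prA A b₀ b) (prA A b₀ c) (prA A b₀ d)

/-- two and two: the two pairs are on different sides of the split and consist of attached vertices -/
def TS2 (G : SimpleGraph V) (A : Set V) (a₀ b₀ a b c d : V) : Prop :=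
  a ≠ b ∧ c ≠ d ∧ ((a ∈ A ∧ b ∈ A ∧ c ∉ A ∧ d ∉ A ∧ G.Adj a b₀ ∧ G.Adj b b₀ ∧ G.Adj a₀ c ∧ G.Adj a₀ d) ∨
    (a ∉ A ∧ b ∉ A ∧ c ∈ A ∧ d ∈ A ∧ G.Adj a₀ a ∧ G.Adj a₀ b ∧ G.Adj c b₀ ∧ G.Adj d b₀))

/-- the composed quartets -/
def TS (G : SimpleGraph V) (A : Set V) (a₀ b₀ : V) (T₁ T₂ : V → V → V → V → Prop) (a b c d : V) : Prop :=
  TS1 G A a₀ b₀ T₁ a b c d ∨ TS1 G Aᶜ b₀ a₀ T₂ a b c d ∨ TS2 G A a₀ b₀ a b c d

/-- exchanging the two sides -/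
theorem ts_comm {A : Set V} {a₀ b₀ : V} {T₁ T₂ : V → V → V → V → Prop} {a b c d : V} :
    TS G A a₀ b₀ T₁ T₂ a b c d ↔ TS G Aᶜ b₀ a₀ T₂ T₁ a b c d := by
  have e : ∀ x : V, x ∈ Aᶜ ↔ x ∉ A := fun x => Iff.rfl
  have e2 : TS2 G A a₀ b₀ a b c d ↔ TS2 G Aᶜ b₀ a₀ a b c d := by
    unfold TS2
    have s1 : ∀ x y : V, G.Adj x y ↔ G.Adj y x := fun x y => ⟨fun h => h.symm, fun h => h.symm⟩
    constructor
    · rintro ⟨h1, h2, (h | h)⟩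
      · exact ⟨h1, h2, Or.inr ⟨not_not.2 h.1, not_not.2 h.2.1, h.2.2.1, h.2.2.2.1, h.2.2.2.2.1.symm,
          h.2.2.2.2.2.1.symm, h.2.2.2.2.2.2.1.symm, h.2.2.2.2.2.2.2.symm⟩⟩
      · exact ⟨h1, h2, Or.inl ⟨h.1, h.2.1, not_not.2 h.2.2.1, not_not.2 h.2.2.2.1, h.2.2.2.2.1.symm,
          h.2.2.2.2.2.1.symm, h.2.2.2.2.2.2.1.symm, h.2.2.2.2.2.2.2.symm⟩⟩
    · rintro ⟨h1, h2, (h | h)⟩
      · exact ⟨h1, h2, Or.inr ⟨h.1, h.2.1, not_not.1 h.2.2.1, not_not.1 h.2.2.2.1, h.2.2.2.2.1.symm,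
          h.2.2.2.2.2.1.symm, h.2.2.2.2.2.2.1.symm, h.2.2.2.2.2.2.2.symm⟩⟩
      · exact ⟨h1, h2, Or.inl ⟨not_not.1 h.1, not_not.1 h.2.1, h.2.2.1, h.2.2.2.1, h.2.2.2.2.1.symm,
          h.2.2.2.2.2.1.symm, h.2.2.2.2.2.2.1.symm, h.2.2.2.2.2.2.2.symm⟩⟩
  unfold TS
  rw [e2, compl_compl]
  constructor
  · rintro (h | h | h)
    · exact Or.inr (Or.inl h)
    · exact Or.inl h
    · exact Or.inr (Or.inr h)
  · rintro (h | h | h)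
    · exact Or.inr (Or.inl h)
    · exact Or.inl h
    · exact Or.inr (Or.inr h)

theorem IsSpl.symm {A : Set V} {a₀ b₀ : V} (h : IsSpl G A a₀ b₀) : IsSpl G Aᶜ b₀ a₀ where
  ha := h.hb
  hb := not_not.2 h.ha
  adj := h.adj.symm
  rect := by
    intro a b ha hb
    have := h.rect (a := b) (b := a) (not_not.1 hb) ha
    constructor
    · intro h1
      exact ⟨(this.1 h1.symm).2.symm, (this.1 h1.symm).1.symm⟩
    · intro h1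
      exact (this.2 ⟨h1.2.symm, h1.1.symm⟩).symm

end Pool.Agent.SOS
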