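import Pool.Agent.SOC.ModPoly

/-! Project SOS, module TwoSat (size 3): satisfiability of a 2-CNF in polynomial time. Literals are numbers: `2 * v` is the variable
`v`, `2 * v + 1` its negation. Use `MO_closB` (SOC/ModOrder.lean) and `poly_closB` (SOC/ModPoly.lean). -/

set_option autoImplicit false

namespace Pool.Agent.SOS

open Pool.Agent.SOC FP

/-- the negation of a literal -/
def neg (l : ℕ) : ℕ := if l % 2 = 0 then l + 1 else l - 1

/-- the value of a literal -/
def litVal (s : ℕ → Bool) (l : ℕ) : Bool := if l % 2 = 0 then s (l / 2) else !(s (l / 2))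

/-- the literals implied by the literal `l` -/
def implied (n : ℕ) (cs : List (ℕ × ℕ)) (l : ℕ) : List ℕ :=
  closB (fun z S => S.any (fun u => cs.any (fun c =>
    (decide (c.1 = neg u) && decide (c.2 = z)) || (decide (c.2 = neg u) && decide (c.1 = z))))) (List.range (2 * n)) [l]

/-- the test: no variable implies its negation and vice versa -/
def sat2 (n : ℕ) (cs : List (ℕ × ℕ)) : Bool :=
  (List.range n).all (fun v => !(decide (2 * v + 1 ∈ implied n cs (2 * v)) && decide (2 * v ∈ implied n cs (2 * v + 1))))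

theorem TwoSat_neg_neg (l : ℕ) : neg (neg l) = l := by
  unfold neg
  by_cases h : l % 2 = 0
  · rw [if_pos h, if_neg (by omega)]
    omega
  · rw [if_neg h, if_pos (by omega)]
    omega

theorem TwoSat_neg_even (v : ℕ) : neg (2 * v) = 2 * v + 1 := by
  unfold neg
  rw [if_pos (by omega)]

theorem TwoSat_neg_odd (v : ℕ) : neg (2 * v + 1) = 2 * v := by
  unfold neg
  rw [if_neg (by omega)]
  omega

theorem TwoSat_val_neg (s : ℕ → Bool) (l : ℕ) : litVal s (neg l) = !(litVal s l) := by
  unfold litVal neg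
  by_cases h : l % 2 = 0
  · rw [if_pos h, if_neg (by omega), if_pos h]
    congr 2
    omega
  · rw [if_neg h, if_pos (by omega), if_neg h, Bool.not_not]
    congr 1
    omega

/-- one step of implication -/
def TwoSat_step (cs : List (ℕ × ℕ)) (u z : ℕ) : Prop :=
  ∃ c ∈ cs, (c.1 = neg u ∧ c.2 = z) ∨ (c.2 = neg u ∧ c.1 = z)

theorem TwoSat_step_symm {cs : List (ℕ × ℕ)} {u z : ℕ} (h : TwoSat_step cs u z) :
    TwoSat_step cs (neg z) (neg u) := by
  obtain ⟨c, hc, h | h⟩ := h
  · exact ⟨c, hc, Or.inr ⟨by rw [TwoSat_neg_neg]; exact h.2, h.1⟩⟩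
  · exact ⟨c, hc, Or.inl ⟨by rw [TwoSat_neg_neg]; exact h.2, h.1⟩⟩

theorem TwoSat_reach_symm {cs : List (ℕ × ℕ)} {u z : ℕ} (h : Relation.ReflTransGen (TwoSat_step cs) u z) :
    Relation.ReflTransGen (TwoSat_step cs) (neg z) (neg u) := by
  induction h with
  | refl => exact Relation.ReflTransGen.refl
  | tail _ h2 ih => exact Relation.ReflTransGen.head (TwoSat_step_symm h2) ih

theorem TwoSat_f_iff (cs : List (ℕ × ℕ)) (z : ℕ) (S : List ℕ) :
    (S.any (fun u => cs.any (fun c =>
      (decide (c.1 = neg u) && decide (c.2 = z)) || (decide (c.2 = neg u) && decide (c.1 = z))))) = true ↔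
      ∃ u ∈ S, TwoSat_step cs u z := by
  simp only [List.any_eq_true, Bool.or_eq_true, Bool.and_eq_true, decide_eq_true_eq]
  exact Iff.rfl

theorem TwoSat_implied (n : ℕ) (cs : List (ℕ × ℕ)) (h : ∀ c ∈ cs, c.1 < 2 * n ∧ c.2 < 2 * n) {l : ℕ}
    (hl : l < 2 * n) (z : ℕ) : z ∈ implied n cs l ↔ Relation.ReflTransGen (TwoSat_step cs) l z := by
  have hcl := MO_closB (f := fun z S => S.any (fun u => cs.any (fun c =>
      (decide (c.1 = neg u) && decide (c.2 = z)) || (decide (c.2 = neg u) && decide (c.1 = z)))))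
    (L := List.range (2 * n)) (S := [l]) (by
      intro z A B hAB hA
      rw [TwoSat_f_iff] at hA ⊢
      obtain ⟨u, hu, hs⟩ := hA
      exact ⟨u, hAB u hu, hs⟩) (by
      intro x hx
      rw [List.mem_singleton] at hx
      rw [hx]
      exact List.mem_range.2 hl)
  obtain ⟨h1, h2, h3⟩ := hcl
  constructor
  · intro hz
    refine h3 {z | Relation.ReflTransGen (TwoSat_step cs) l z} ?_ ?_ z hz
    · intro x hx
      rw [List.mem_singleton] at hx
      rw [hx]
      exact Relation.ReflTransGen.refl
    · intro z _ A hA hf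
      rw [TwoSat_f_iff] at hf
      obtain ⟨u, hu, hs⟩ := hf
      exact Relation.ReflTransGen.tail (hA u hu).1 hs
  · intro hz
    induction hz with
    | refl => exact h1 l (List.mem_singleton.2 rfl)
    | @tail u w _ hs ih =>
      refine h2 w ?_ ?_
      · obtain ⟨c, hc, h4 | h4⟩ := hs
        · rw [← h4.2]
          exact List.mem_range.2 (h c hc).2
        · rw [← h4.2]
          exact List.mem_range.2 (h c hc).1
      · exact (TwoSat_f_iff cs w _).2 ⟨u, ih, hs⟩

theorem TwoSat_iff (n : ℕ) (cs : List (ℕ × ℕ)) (h : ∀ c ∈ cs, c.1 < 2 * n ∧ c.2 < 2 * n) :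
    sat2 n cs = true ↔ ∀ v < n, ¬ (Relation.ReflTransGen (TwoSat_step cs) (2 * v) (2 * v + 1) ∧
      Relation.ReflTransGen (TwoSat_step cs) (2 * v + 1) (2 * v)) := by
  unfold sat2
  rw [List.all_eq_true]
  constructor
  · intro h1 v hv h2
    have h3 := h1 v (List.mem_range.2 hv)
    rw [Bool.not_eq_true', Bool.and_eq_false_iff, decide_eq_false_iff_not, decide_eq_false_iff_not,
      TwoSat_implied n cs h (by omega), TwoSat_implied n cs h (by omega)] at h3
    rcases h3 with h3 | h3
    · exact h3 h2.1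
    · exact h3 h2.2
  · intro h1 v hv
    have hv' := List.mem_range.1 hv
    have h3 := h1 v hv'
    rw [Bool.not_eq_true', Bool.and_eq_false_iff, decide_eq_false_iff_not, decide_eq_false_iff_not,
      TwoSat_implied n cs h (by omega), TwoSat_implied n cs h (by omega)]
    by_contra h4
    push Not at h4
    exact h3 h4

theorem TwoSat_sound {cs : List (ℕ × ℕ)} {s : ℕ → Bool}
    (hs : ∀ c ∈ cs, litVal s c.1 = true ∨ litVal s c.2 = true) {u z : ℕ}
    (h : Relation.ReflTransGen (TwoSat_step cs) u z) (hu : litVal s u = true) : litVal s z = true := by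
  induction h with
  | refl => exact hu
  | @tail a b _ h2 ih =>
    obtain ⟨c, hc, h4 | h4⟩ := h2
    · rcases hs c hc with h5 | h5
      · rw [h4.1, TwoSat_val_neg, ih] at h5
        exact absurd h5 (by decide)
      · rw [← h4.2]
        exact h5
    · rcases hs c hc with h5 | h5
      · rw [← h4.2]
        exact h5
      · rw [h4.1, TwoSat_val_neg, ih] at h5
        exact absurd h5 (by decide)

/-- consistent closed sets which decide the variables below `k` -/
theorem TwoSat_ext {n : ℕ} {cs : List (ℕ × ℕ)}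
    (h : ∀ v < n, ¬ (Relation.ReflTransGen (TwoSat_step cs) (2 * v) (2 * v + 1) ∧
      Relation.ReflTransGen (TwoSat_step cs) (2 * v + 1) (2 * v))) (k : ℕ) (hk : k ≤ n) :
    ∃ S : Set ℕ, (∀ u ∈ S, ∀ z, TwoSat_step cs u z → z ∈ S) ∧ (∀ m, ¬ (m ∈ S ∧ neg m ∈ S)) ∧
      ∀ v < k, 2 * v ∈ S ∨ 2 * v + 1 ∈ S := by
  induction k with
  | zero =>
    refine ⟨∅, ?_, ?_, ?_⟩
    · intro u hu
      exact absurd hu (Set.notMem_empty u)
    · intro m hm
      exact absurd hm.1 (Set.notMem_empty m)
    · intro v hv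
      exact absurd hv (Nat.not_lt_zero v)
  | succ k ih =>
    obtain ⟨S, h1, h2, h3⟩ := ih (by omega)
    have h1' : ∀ u z, Relation.ReflTransGen (TwoSat_step cs) u z → u ∈ S → z ∈ S := by
      intro u z hr hu
      induction hr with
      | refl => exact hu
      | tail _ h5 ih5 => exact h1 _ ih5 _ h5
    by_cases hk' : 2 * k ∈ S ∨ 2 * k + 1 ∈ S
    · refine ⟨S, h1, h2, ?_⟩
      intro v hv
      rcases Nat.lt_succ_iff_lt_or_eq.1 hv with h4 | h4
      · exact h3 v h4
      · rw [h4]
        exact hk'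
    · push Not at hk'
      obtain ⟨l, hl1, hl2, hl3, hl4⟩ : ∃ l, (l = 2 * k ∨ l = 2 * k + 1) ∧ l ∉ S ∧ neg l ∉ S ∧
          ¬ Relation.ReflTransGen (TwoSat_step cs) l (neg l) := by
        by_cases h4 : Relation.ReflTransGen (TwoSat_step cs) (2 * k) (2 * k + 1)
        · refine ⟨2 * k + 1, Or.inr rfl, hk'.2, ?_, ?_⟩
          · rw [TwoSat_neg_odd]
            exact hk'.1
          · rw [TwoSat_neg_odd]
            intro h5
            exact h k (by omega) ⟨h4, h5⟩
        · refine ⟨2 * k, Or.inl rfl, hk'.1, ?_, ?_⟩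
          · rw [TwoSat_neg_even]
            exact hk'.2
          · rw [TwoSat_neg_even]
            exact h4
      refine ⟨S ∪ {z | Relation.ReflTransGen (TwoSat_step cs) l z}, ?_, ?_, ?_⟩
      · rintro u (hu | hu) z hz
        · exact Or.inl (h1 u hu z hz)
        · exact Or.inr (Relation.ReflTransGen.tail hu hz)
      · rintro m ⟨hm | hm, hm' | hm'⟩
        · exact h2 m ⟨hm, hm'⟩
        · have h5 := TwoSat_reach_symm hm'
          rw [TwoSat_neg_neg] at h5
          exact hl3 (h1' m _ h5 hm)
        · exact hl3 (h1' _ _ (TwoSat_reach_symm hm) hm')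
        · have h5 := TwoSat_reach_symm hm'
          rw [TwoSat_neg_neg] at h5
          exact hl4 (Relation.ReflTransGen.trans hm h5)
      · intro v hv
        rcases Nat.lt_succ_iff_lt_or_eq.1 hv with h4 | h4
        · rcases h3 v h4 with h5 | h5
          · exact Or.inl (Or.inl h5)
          · exact Or.inr (Or.inl h5)
        · rw [h4]
          rcases hl1 with h5 | h5
          · refine Or.inl (Or.inr ?_)
            rw [← h5]
            exact Relation.ReflTransGen.refl
          · refine Or.inr (Or.inr ?_)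
            rw [← h5]
            exact Relation.ReflTransGen.refl

/-- PROOF. If s is a solution and l is true then all implied literals are true (MO_closB, third part), so → (not both). Conversely:
let Imp u z (one step: c = (¬u, z) or (z, ¬u)), reachability is skew-symmetric: u →* z iff ¬z →* ¬u. Take a maximal (finite
set of literals < 2n) closed consistent set S of literals. If v, ¬v ∉ S: l ∈ {v, ¬v} with ¬l not reachable from l; S ∪ reach(l) is
closed and consistent: m, ¬m ∈ reach(l): l →* m, l →* ¬m, so m →* ¬l; m ∈ S, ¬m ∈ reach(l): m →* ¬l, ¬l ∈ S. So S is complete: s v := (2v ∈ S). -/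
theorem sat2_iff (n : ℕ) (cs : List (ℕ × ℕ)) (h : ∀ c ∈ cs, c.1 < 2 * n ∧ c.2 < 2 * n) :
    sat2 n cs = true ↔ ∃ s : ℕ → Bool, ∀ c ∈ cs, litVal s c.1 = true ∨ litVal s c.2 = true := by
  rw [TwoSat_iff n cs h]
  constructor
  · intro h0
    obtain ⟨S, h1, h2, h3⟩ := TwoSat_ext h0 n le_rfl
    classical
    have hval : ∀ m, m < 2 * n → (litVal (fun v => decide (2 * v ∈ S)) m = true ↔ m ∈ S) := by
      intro m hm
      unfold litVal
      by_cases h4 : m % 2 = 0
      · rw [if_pos h4, decide_eq_true_eq]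
        have h5 : 2 * (m / 2) = m := by omega
        rw [h5]
      · rw [if_neg h4, Bool.not_eq_true', decide_eq_false_iff_not]
        have h5 : 2 * (m / 2) + 1 = m := by omega
        have h6 := h2 (2 * (m / 2))
        rw [TwoSat_neg_even, h5] at h6
        have h7 := h3 (m / 2) (by omega)
        rw [h5] at h7
        constructor
        · intro h8
          rcases h7 with h7 | h7
          · exact absurd h7 h8
          · exact h7
        · intro h8 h9
          exact h6 ⟨h9, h8⟩
    refine ⟨fun v => decide (2 * v ∈ S), ?_⟩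
    intro c hc
    obtain ⟨hc1, hc2⟩ := h c hc
    rw [hval _ hc1, hval _ hc2]
    by_contra hcon
    push Not at hcon
    have h8 : neg c.1 ∈ S := by
      have h7 := h3 (c.1 / 2) (by omega)
      by_cases h4 : c.1 % 2 = 0
      · have h5 : 2 * (c.1 / 2) = c.1 := by omega
        rw [← h5, TwoSat_neg_even]
        rcases h7 with h7 | h7
        · rw [h5] at h7
          exact absurd h7 hcon.1
        · exact h7
      · have h5 : 2 * (c.1 / 2) + 1 = c.1 := by omega
        rw [← h5, TwoSat_neg_odd]
        rcases h7 with h7 | h7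
        · exact h7
        · rw [h5] at h7
          exact absurd h7 hcon.1
    exact hcon.2 (h1 _ h8 c.2 ⟨c, hc, Or.inl ⟨(TwoSat_neg_neg c.1).symm, rfl⟩⟩)
  · rintro ⟨s, hs⟩ v _ ⟨h1, h2⟩
    have e1 : litVal s (2 * v + 1) = !(litVal s (2 * v)) := by
      rw [← TwoSat_neg_even, TwoSat_val_neg]
    cases hv : litVal s (2 * v) with
    | true =>
      have h3 := TwoSat_sound hs h1 hv
      rw [e1, hv] at h3
      exact absurd h3 (by decide)
    | false =>
      have h4 : litVal s (2 * v + 1) = true := by rw [e1, hv]; rfl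
      have h3 := TwoSat_sound hs h2 h4
      rw [hv] at h3
      exact absurd h3 (by decide)

theorem TwoSat_poly_neg {α : Type} [Code α] {f : α → ℕ} (hf : Poly f) : Poly (fun a => neg (f a)) := by
  refine (Poly.cond (c := fun a => decide (f a % 2 = 0)) (by fun_prop) (f := fun a => f a + 1)
    (g := fun a => f a - 1) (by fun_prop) (by fun_prop)).congr (fun a => ?_)
  unfold neg
  by_cases h : f a % 2 = 0
  · rw [if_pos h, decide_eq_true h]
    rfl
  · rw [if_neg h, decide_eq_false h]
    rfl

theorem TwoSat_poly_implied {α : Type} [Code α] {n l : α → ℕ} {cs : α → List (ℕ × ℕ)} (hn : Poly n) (hb : PolyBdd n)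
    (hcs : Poly cs) (hl : Poly l) : Poly (fun a => implied (n a) (cs a) (l a)) := by
  unfold implied
  refine poly_closB (f := fun a z S => S.any (fun u => (cs a).any (fun c =>
      (decide (c.1 = neg u) && decide (c.2 = z)) || (decide (c.2 = neg u) && decide (c.1 = z)))))
    (L := fun a => List.range (2 * n a)) (S := fun a => [l a]) ?_ ?_ (by fun_prop)
  · refine Poly.any (f := fun p : α × ℕ × List ℕ => p.2.2)
      (g := fun (p : α × ℕ × List ℕ) (u : ℕ) => (cs p.1).any (fun c =>
        (decide (c.1 = neg u) && decide (c.2 = p.2.1)) || (decide (c.2 = neg u) && decide (c.1 = p.2.1))))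
      (by fun_prop) ?_
    refine Poly.any (f := fun q : (α × ℕ × List ℕ) × ℕ => cs q.1.1)
      (g := fun (q : (α × ℕ × List ℕ) × ℕ) (c : ℕ × ℕ) =>
        (decide (c.1 = neg q.2) && decide (c.2 = q.1.2.1)) || (decide (c.2 = neg q.2) && decide (c.1 = q.1.2.1)))
      (hcs.comp (f := fun q : (α × ℕ × List ℕ) × ℕ => q.1.1) (by fun_prop)) ?_
    have hneg : Poly (fun r : ((α × ℕ × List ℕ) × ℕ) × (ℕ × ℕ) => neg r.1.2) := TwoSat_poly_neg (by fun_prop)
    fun_prop
  · exact Poly.range (by fun_prop) (PolyBdd.mul (PolyBdd.const 2) hb)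

theorem poly_sat2 {α : Type} [Code α] {n : α → ℕ} {cs : α → List (ℕ × ℕ)} (hn : Poly n) (hb : PolyBdd n) (hcs : Poly cs) :
    Poly (fun a => sat2 (n a) (cs a)) := by
  unfold sat2
  refine Poly.all (f := fun a => List.range (n a))
    (g := fun (a : α) (v : ℕ) => !(decide (2 * v + 1 ∈ implied (n a) (cs a) (2 * v)) &&
      decide (2 * v ∈ implied (n a) (cs a) (2 * v + 1)))) (Poly.range hn hb) ?_
  have hn' : Poly (fun p : α × ℕ => n p.1) := hn.comp (f := fun p : α × ℕ => p.1) (by fun_prop)
  have hb' : PolyBdd (fun p : α × ℕ => n p.1) := hb.fst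
  have hcs' : Poly (fun p : α × ℕ => cs p.1) := hcs.comp (f := fun p : α × ℕ => p.1) (by fun_prop)
  have h1 : Poly (fun p : α × ℕ => implied (n p.1) (cs p.1) (2 * p.2)) :=
    TwoSat_poly_implied hn' hb' hcs' (by fun_prop)
  have h2 : Poly (fun p : α × ℕ => implied (n p.1) (cs p.1) (2 * p.2 + 1)) :=
    TwoSat_poly_implied hn' hb' hcs' (by fun_prop)
  fun_prop

end Pool.Agent.SOS
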